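import Pool.Agent.H772R2.NS.Pub

/-!
Public definitions: rotations about the third axis.
-/

set_option autoImplicit false

open MeasureTheory Set
open scoped InnerProductSpace

namespace Pool.Agent.Y303.NF

open H772R2.NS.Pub

/-- The rotation by the angle `α` about the third coordinate axis. -/
noncomputable def rot (α : ℝ) (x : R3) : R3 :=
  (Real.cos α * ⟪e 0, x⟫_ℝ - Real.sin α * ⟪e 1, x⟫_ℝ) • e 0
    + (Real.sin α * ⟪e 0, x⟫_ℝ + Real.cos α * ⟪e 1, x⟫_ℝ) • e 1 + ⟪e 2, x⟫_ℝ • e 2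

/-- The square of the distance of `x` from the third coordinate axis. -/
noncomputable def axisSq (x : R3) : ℝ := ⟪e 0, x⟫_ℝ ^ 2 + ⟪e 1, x⟫_ℝ ^ 2

/-- The field `v` is invariant under the rotation by the angle `α`: `v(Rx) = R v(x)`. -/
def IsInvariant {Ω : Set R3} (α : ℝ) (v : L2 Ω R3) : Prop :=
  ∀ᵐ x ∂(volume.restrict Ω), v.fn (rot α x) = rot α (v.fn x)

/-- The force given by `⟨f, φ⟩ = (F, ∇φ)` is invariant under the rotation by the angle `α`:
`⟨f, φ⟩ = ⟨f, R φ(R⁻¹ ·)⟩` for all divergence free test fields `φ`. -/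
def IsInvariantForce {Ω : Set R3} (α : ℝ) (F : L2 Ω Mat) : Prop :=
  ∀ φ, IsTest Ω φ → (∫ x in Ω, ⟪F.fn x, jac (fun y => rot α (φ (rot (-α) y))) x⟫_ℝ)
    = ∫ x in Ω, ⟪F.fn x, jac φ x⟫_ℝ

end Pool.Agent.Y303.NF
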