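import Pool.Agent.Y303.NF.Dens
import Pool.Agent.Y303.NF.PubDef
import Pool.Agent.W795.TQ.DPub
import Pool.Agent.W795.ES.Pub
import Pool.Agent.Y303.RA.Conc

/-!
Global strong solutions for data which are invariant under a rotation by `2π/n`.
-/

set_option autoImplicit false
set_option linter.unusedSectionVars false

open MeasureTheory Set Filter Topology
open scoped InnerProductSpace ENNReal ContDiff

namespace Pool.Agent.Y303.NF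

open H772R2.NS H772R2.NS.Pub H772R2.NSR H772R2.NSG
open Pool.Agent.W795.TQ Pool.Agent.Y303.RA

theorem rot_eq (α : ℝ) (x : E3) : (rot α x : E3) = rotF α x := by
  have h0 : ⟪(Pub.e 0 : E3), x⟫_ℝ = x 0 := inner_e 0 x
  have h1 : ⟪(Pub.e 1 : E3), x⟫_ℝ = x 1 := inner_e 1 x
  have h2 : ⟪(Pub.e 2 : E3), x⟫_ℝ = x 2 := inner_e 2 x
  have h : (rot α x : E3) = (Real.cos α * ⟪(Pub.e 0 : E3), x⟫_ℝ
      - Real.sin α * ⟪(Pub.e 1 : E3), x⟫_ℝ) • (ev 0 : E3)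
    + (Real.sin α * ⟪(Pub.e 0 : E3), x⟫_ℝ + Real.cos α * ⟪(Pub.e 1 : E3), x⟫_ℝ) • (ev 1 : E3)
    + ⟪(Pub.e 2 : E3), x⟫_ℝ • (ev 2 : E3) := rfl
  rw [h, h0, h1, h2]
  exact (pt_eq _ _ _).symm

theorem axisSq_eq (x : E3) : axisSq x = x 0 ^ 2 + x 1 ^ 2 := by
  have h0 : ⟪(Pub.e 0 : E3), x⟫_ℝ = x 0 := inner_e 0 x
  have h1 : ⟪(Pub.e 1 : E3), x⟫_ℝ = x 1 := inner_e 1 x
  show ⟪(Pub.e 0 : E3), x⟫_ℝ ^ 2 + ⟪(Pub.e 1 : E3), x⟫_ℝ ^ 2 = _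
  rw [h0, h1]

theorem inv_of {Ω : Set E3} {n : ℕ} (hn : 0 < n)
    (h : ∀ x ∈ Ω, rotF (2 * Real.pi / n) x ∈ Ω) : Inv (2 * Real.pi / n) Ω := by
  have hn' : (n : ℝ) ≠ 0 := by positivity
  set α : ℝ := 2 * Real.pi / n with hα
  have hk : ∀ (k : ℕ), ∀ x ∈ Ω, rotF (k * α) x ∈ Ω := by
    intro k
    induction k with
    | zero =>
      intro x hx
      rw [Nat.cast_zero, zero_mul, rotF_zero]
      exact hx
    | succ k ih =>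
      intro x hx
      have := h _ (ih x hx)
      rw [rotF_rotF] at this
      have e : ((k + 1 : ℕ) : ℝ) * α = α + k * α := by push_cast; ring
      rwa [e]
  intro x
  refine ⟨fun hx => ?_, fun hx => h x hx⟩
  obtain ⟨m, rfl⟩ : ∃ m, n = m + 1 := ⟨n - 1, by omega⟩
  have h1 := hk m _ hx
  rw [rotF_rotF] at h1
  have e : (m : ℝ) * α + α = 2 * Real.pi := by
    rw [hα]
    push_cast at hn' ⊢
    field_simp
  rwa [e, rotF_two_pi] at h1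

/-- gluing of strong solutions -/
theorem glue_all {H K : Type} [NormedAddCommGroup H] [InnerProductSpace ℝ H] [CompleteSpace H]
    [NormedAddCommGroup K] [InnerProductSpace ℝ K] [CompleteSpace K]
    {W : Submodule ℝ (H × K)} {m : H → K} {C ν : ℝ} {F : ℝ → K} (huni : S_uni)
    (Fr : Frame W m C) (hν : 0 < ν) {I : Set ℝ} (hI : ∀ T ∈ I, 0 < T)
    (hF : ∀ T ∈ I, ContinuousOn F (Icc 0 T)) {x0 : H}
    (hex : ∀ T ∈ I, ∃ (u u1 : ℝ → H) (z z1 : ℝ → K), Str W m ν T F u u1 z z1 ∧ u 0 = x0) :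
    ∃ v : ℝ → H, v 0 = x0 ∧
      ∀ T ∈ I, Str W m ν T F v (deriv v) (gz W v) (deriv (gz W v)) := by
  classical
  choose! u u1 z z1 hS h0 using hex
  have hagree : ∀ T ∈ I, ∀ T' ∈ I, ∀ t, 0 ≤ t → t ≤ T → t ≤ T' → u T t = u T' t := by
    intro T hT T' hT' t ht htT htT'
    rcases le_total T T' with h | h
    · exact (str_unique huni Fr hν (hI T' hT') (hI T hT) h (hF T' hT') (hS T' hT') (hS T hT)
        ((h0 T hT).trans (h0 T' hT').symm) t ⟨ht, htT⟩).symm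
    · exact str_unique huni Fr hν (hI T hT) (hI T' hT') h (hF T hT) (hS T hT) (hS T' hT')
        ((h0 T' hT').trans (h0 T hT).symm) t ⟨ht, htT'⟩
  set v : ℝ → H := fun t => if h : ∃ T ∈ I, t ≤ T then u h.choose t else x0 with hv
  have hvu : ∀ T ∈ I, ∀ t ∈ Icc 0 T, v t = u T t := by
    intro T hT t ht
    have h : ∃ T ∈ I, t ≤ T := ⟨T, hT, ht.2⟩
    simp only [hv]
    rw [dif_pos h]
    exact hagree _ h.choose_spec.1 T hT t ht.1 h.choose_spec.2 ht.2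
  refine ⟨v, ?_, fun T hT => glue Fr (hI T hT) (hS T hT) (hvu T hT)⟩
  by_cases h : ∃ T ∈ I, (0 : ℝ) ≤ T
  · obtain ⟨T, hT, h1⟩ := h
    rw [hvu T hT 0 ⟨le_rfl, h1⟩, h0 T hT]
  · simp only [hv]
    rw [dif_neg h]

/-- the theorem, internal form -/
theorem nf_mid (hloc : S_loc) (huni : S_uni) {Ω : Set E3} (hΩ : IsOpen Ω)
    (hb : Bornology.IsBounded Ω) {ρ R : ℝ} (hρ : 0 < ρ) (hR : 0 < R)
    (hsub : ∀ x ∈ Ω, ρ ^ 2 ≤ x 0 ^ 2 + x 1 ^ 2 ∧ x 0 ^ 2 + x 1 ^ 2 ≤ R ^ 2) {n : ℕ} (hn : 0 < n)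
    (hrot : Inv (2 * Real.pi / n) Ω) {ν : ℝ} (hν : 0 < ν) {I : Set ℝ} (hI : ∀ T ∈ I, 0 < T)
    {F F1 : ℝ → L2M Ω} (hF : ∀ T ∈ I, FH T F F1) {u0 g0 : L2V Ω} {z0 : L2M Ω}
    (h0 : (u0, z0) ∈ graphW Ω)
    (hg : ∀ p ∈ graphW Ω, ⟪F 0 - ν • z0 + tensL u0, p.2⟫_ℝ = ⟪g0, p.1⟫_ℝ)
    (hu0 : UI hΩ.measurableSet hrot u0 = u0)
    (hFs : ∀ T ∈ I, ∀ t ∈ Icc 0 T, ∀ p ∈ graphW Ω,
      ⟪F t, VI hΩ.measurableSet hrot p.2⟫_ℝ = ⟪F t, p.2⟫_ℝ)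
    {E Φ B : ℝ} (hE0 : 0 ≤ E)
    (hE : ∀ T ∈ I, ‖u0‖ ^ 2 + (∫ s in (0 : ℝ)..T, ‖F s‖ ^ 2) / ν ≤ E ^ 2)
    (hΦ : ∀ T ∈ I, ∀ t ∈ Icc 0 T, ‖F t‖ ≤ Φ) (hB0 : 0 < B)
    (hB : ∀ T ∈ I, 17 * ‖g0‖ ^ 2 + (∫ s in (0 : ℝ)..T, ‖F1 s‖ ^ 2) / ν ≤ B ^ 2)
    (hcond : 432 * R ^ 2 * E ^ 2 * (Φ ^ 2 + 2 * ν * E * (B * Real.exp (E ^ 2 / (Real.pi * ρ * ν ^ 2)
      + 1 / 2))) ≤ n ^ 2 * ρ ^ 2 * ν ^ 6) :
    ∃ (C : ℝ) (v : ℝ → L2V Ω), Frame (graphW Ω) (tensL (Ω := Ω)) C ∧ v 0 = u0 ∧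
      ∀ T ∈ I, Str (graphW Ω) (tensL (Ω := Ω)) ν T F v (deriv v) (gz (graphW Ω) v)
        (deriv (gz (graphW Ω) v)) := by
  obtain ⟨C, Fr⟩ := exists_frame hΩ hb
  have hm := hΩ.measurableSet
  have hn' : (0 : ℝ) < n := by exact_mod_cast hn
  have hpi := Real.pi_pos
  have hex : ∀ T ∈ I, ∃ (u u1 : ℝ → L2V Ω) (z z1 : ℝ → L2M Ω),
      Str (graphW Ω) (tensL (Ω := Ω)) ν T F u u1 z z1 ∧ u 0 = u0 := by
    intro T hT
    have hT0 := hI T hT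
    have hFc : ContinuousOn F (Icc 0 T) := prim_cont (hF T hT).memLp (hF T hT).prim
    have hF2 : ContinuousOn (fun s => ‖F s‖ ^ 2) (Icc 0 T) := hFc.norm.pow 2
    refine exist_of hloc Fr (hom_tensL hm) (rellich_W hΩ hb) hν hT0 (hF T hT) h0 hg
      (a := 1 / (2 * Real.pi * ρ)) (b := 2 * R / (n * ρ)) (E := E) (Φ := Φ) (B := B)
      (Y := B * Real.exp (2 * (1 / (2 * Real.pi * ρ)) * E ^ 2 / ν ^ 2 + 1 / 2))
      (by positivity) (by positivity) hE0 ?_ (hΦ T hT) hB0.le ?_ rfl ?_ ?_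
    · intro t ht
      have h1 := hE T hT
      have h2 : ∫ s in (0 : ℝ)..t, ‖F s‖ ^ 2 ≤ ∫ s in (0 : ℝ)..T, ‖F s‖ ^ 2 := by
        refine intervalIntegral.integral_mono_interval le_rfl ht.1 ht.2
          (Eventually.of_forall fun s => by positivity) ?_
        refine ContinuousOn.intervalIntegrable ?_
        rw [uIcc_of_le hT0.le]
        exact hF2
      have h3 : (∫ s in (0 : ℝ)..t, ‖F s‖ ^ 2) / ν ≤ (∫ s in (0 : ℝ)..T, ‖F s‖ ^ 2) / ν := by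
        gcongr
      linarith
    · have h1 := hB T hT
      have hI0 : 0 ≤ ∫ s in (0 : ℝ)..T, ‖F1 s‖ ^ 2 :=
        intervalIntegral.integral_nonneg hT0.le fun s _ => by positivity
      have h2 : 2 / (3 * ν) * (∫ s in (0 : ℝ)..T, ‖F1 s‖ ^ 2)
          = (∫ s in (0 : ℝ)..T, ‖F1 s‖ ^ 2) / ν * (2 / 3) := by
        field_simp
      rw [h2]
      have h3 : 0 ≤ (∫ s in (0 : ℝ)..T, ‖F1 s‖ ^ 2) / ν := by positivity
      have h4 : 0 ≤ ‖g0‖ ^ 2 := by positivity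
      rcases eq_or_lt_of_le h3 with h5 | h5
      · rcases eq_or_lt_of_le h4 with h6 | h6
        · rw [← h5, ← h6]
          have : 0 < B ^ 2 := by positivity
          linarith
        · linarith
      · linarith
    · have e1 : 2 * (1 / (2 * Real.pi * ρ)) * E ^ 2 / ν ^ 2 = E ^ 2 / (Real.pi * ρ * ν ^ 2) := by
        field_simp
      rw [e1]
      have e2 : 108 * (2 * R / (n * ρ)) ^ 2 * E ^ 2 * (Φ ^ 2 + 2 * ν * E
          * (B * Real.exp (E ^ 2 / (Real.pi * ρ * ν ^ 2) + 1 / 2)))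
          = (432 * R ^ 2 * E ^ 2 * (Φ ^ 2 + 2 * ν * E * (B * Real.exp (E ^ 2 / (Real.pi * ρ * ν ^ 2)
            + 1 / 2)))) / (n ^ 2 * ρ ^ 2) := by
        field_simp
        ring
      rw [e2, div_le_iff₀ (by positivity)]
      calc _ ≤ n ^ 2 * ρ ^ 2 * ν ^ 6 := hcond
        _ = _ := by ring
    · intro τ hτ u u1 z z1 S hu
      have hFτ : ContinuousOn F (Icc 0 τ) := hFc.mono (Icc_subset_Icc_right hτ.2)
      have h1 := (symm_rot hm hrot).inv huni Fr hν hτ.1 hFτ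
        (fun t ht => hFs T hT t ⟨ht.1, ht.2.trans hτ.2⟩) S (by rw [hu]; exact hu0)
      filter_upwards [h1] with t ht
      exact ineq_W (p := (u1 t, z1 t)) hm hρ hR hsub hn hrot ht.1 ht.2.1 ht.2.2
  obtain ⟨v, hv0, hv⟩ := glue_all huni Fr hν hI
    (fun T hT => prim_cont (hF T hT).memLp (hF T hT).prim) hex
  exact ⟨C, v, Fr, hv0, hv⟩

/-- the theorem, in terms of the public definitions of invariance -/
theorem nf_mid2 (hloc : S_loc) (huni : S_uni) {Ω : Set E3} (hΩ : IsOpen Ω)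
    (hb : Bornology.IsBounded Ω) {ρ R : ℝ} (hρ : 0 < ρ) (hR : 0 < R)
    (hsub : ∀ x : E3, x ∈ Ω → ρ ^ 2 ≤ axisSq x ∧ axisSq x ≤ R ^ 2) {n : ℕ} (hn : 0 < n)
    (hrot : ∀ x : E3, x ∈ Ω → (rot (2 * Real.pi / n) x : E3) ∈ Ω)
    {ν : ℝ} (hν : 0 < ν) {I : Set ℝ} (hI : ∀ T ∈ I, 0 < T)
    {F F1 : ℝ → L2M Ω} (hF : ∀ T ∈ I, FH T F F1)
    (hFs : ∀ T ∈ I, ∀ t ∈ Icc 0 T,
      IsInvariantForce (Ω := (show Set R3 from Ω)) (2 * Real.pi / n) (F t))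
    {u0 g0 : L2V Ω} {z0 : L2M Ω} (h0 : (u0, z0) ∈ graphW Ω)
    (hu0 : IsInvariant (Ω := (show Set R3 from Ω)) (2 * Real.pi / n) u0)
    (hg : ∀ φ : E3 → E3, H772R2.NS.IsTest Ω φ → Pub.rhs (Ω := Ω) ν u0 z0 (F 0) φ
      = ∫ x in (show Set R3 from Ω), ⟪L2.fn (Ω := Ω) (E := R3) g0 x, (φ : R3 → R3) x⟫_ℝ)
    {E Φ B : ℝ} (hE0 : 0 ≤ E) (hB0 : 0 < B)
    (hE : ∀ T ∈ I, ‖u0‖ ^ 2 + (∫ s in (0 : ℝ)..T, ‖F s‖ ^ 2) / ν ≤ E ^ 2)
    (hΦ : ∀ T ∈ I, ∀ t ∈ Icc 0 T, ‖F t‖ ≤ Φ)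
    (hB : ∀ T ∈ I, 17 * ‖g0‖ ^ 2 + (∫ s in (0 : ℝ)..T, ‖F1 s‖ ^ 2) / ν ≤ B ^ 2)
    (hcond : 432 * R ^ 2 * E ^ 2 * (Φ ^ 2 + 2 * ν * E * (B * Real.exp (E ^ 2 / (Real.pi * ρ * ν ^ 2)
      + 1 / 2))) ≤ n ^ 2 * ρ ^ 2 * ν ^ 6) :
    ∃ (u u' : ℝ → L2V Ω) (G G' : ℝ → L2M Ω), u 0 = u0 ∧
      ∀ T ∈ I, IsStrong (show Set R3 from Ω) ν T F u u' G G' ∧
        ∀ (w : ℝ → L2V Ω) (D : ℝ → L2M Ω),
          AEStronglyMeasurable w (volume.restrict (Ioc 0 T)) →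
          (∀ᵐ t ∂(volume.restrict (Ioc 0 T)), (w t, D t) ∈ graphW Ω) →
          MemLp D 2 (volume.restrict (Ioc 0 T)) →
          (∀ φ : E3 → E3, H772R2.NS.IsTest Ω φ → ∀ t ∈ Icc 0 T,
            (∫ x in (show Set R3 from Ω), ⟪L2.fn (Ω := Ω) (E := R3) (w t) x, (φ : R3 → R3) x⟫_ℝ)
              - (∫ x in (show Set R3 from Ω),
                ⟪L2.fn (Ω := Ω) (E := R3) (w 0) x, (φ : R3 → R3) x⟫_ℝ)
            = ∫ s in (0 : ℝ)..t, Pub.rhs (Ω := Ω) ν (w s) (D s) (F s) φ) →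
          (∀ t ∈ Icc 0 T, ‖w t‖ ^ 2 / 2 + ν * (∫ s in (0 : ℝ)..t, ‖D s‖ ^ 2)
            ≤ ‖w 0‖ ^ 2 / 2 + ∫ s in (0 : ℝ)..t, ⟪F s, D s⟫_ℝ) → w 0 = u0 →
          ∀ t ∈ Icc 0 T, w t = u t := by
  have hm : MeasurableSet Ω := hΩ.measurableSet
  have hrot' : Inv (2 * Real.pi / n) Ω := inv_of hn fun x hx => by
    have h1 := hrot x hx
    rwa [rot_eq] at h1
  have hsub' : ∀ x ∈ Ω, ρ ^ 2 ≤ x 0 ^ 2 + x 1 ^ 2 ∧ x 0 ^ 2 + x 1 ^ 2 ≤ R ^ 2 := by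
    intro x hx
    have := hsub x hx
    rwa [axisSq_eq] at this
  have hcomp : ∀ p ∈ graphW Ω, ⟪F 0 - ν • z0 + tensL u0, p.2⟫_ℝ = ⟪g0, p.1⟫_ℝ := by
    refine compat_ext ?_
    rintro p ⟨φ, k1, k2, k3⟩
    rw [← pub_rhs hm ν (F 0) h0 k3, ← pub_inner (Ω := Ω) g0 k2]
    exact hg φ k1
  have hUu : UI hm hrot' u0 = u0 := by
    apply Lp.ext
    have h1 : ∀ᵐ x ∂(volume.restrict Ω),
        u0 (rotF (2 * Real.pi / n) x) = rotF (2 * Real.pi / n) (u0 x) := by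
      filter_upwards [hu0] with x hx
      rw [← rot_eq, ← rot_eq]
      exact hx
    filter_upwards [UI_coe hm hrot' u0, (mp hm hrot').quasiMeasurePreserving.ae h1] with x k1 k2
    rw [k1]
    have k3 : u0 (rotF (2 * Real.pi / n) (rotF (-(2 * Real.pi / n)) x))
      = rotF (2 * Real.pi / n) (u0 (rotF (-(2 * Real.pi / n)) x)) := k2
    rw [← k3, rotF_neg]
  have hFs' : ∀ T ∈ I, ∀ t ∈ Icc 0 T, ∀ p ∈ graphW Ω,
      ⟪F t, VI hm hrot' p.2⟫_ℝ = ⟪F t, p.2⟫_ℝ := by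
    intro T hT t ht p hp
    have key := graphW_induction (fun q : L2V Ω × L2M Ω =>
      ⟪F t, VI hm hrot' q.2⟫_ℝ - ⟪F t, q.2⟫_ℝ) (by
        have hc : Continuous fun q : L2V Ω × L2M Ω => VI hm hrot' q.2 :=
          (VI hm hrot').continuous.comp continuous_snd
        exact ((continuous_const.inner hc).sub (continuous_const.inner
          continuous_snd)).continuousOn) (by
      rintro q ⟨φ, k1, k2, k3⟩
      have e1 := hFs T hT t ht φ ((isTest_iff φ).mpr k1)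
      have e2 := pub_inner_jac (Ω := Ω) (F t) k3
      have e3 := pub_inner_jac (Ω := Ω) (F t) (VI_test hm hrot' k1.smooth k3)
      have e4 : (fun y : R3 => rot (2 * Real.pi / n) (φ (rot (-(2 * Real.pi / n)) y)))
          = (rotT (2 * Real.pi / n) φ : E3 → E3) := by
        funext y
        have a1 : (rot (-(2 * Real.pi / n)) y : E3) = rotF (-(2 * Real.pi / n)) y := rot_eq _ _
        have a2 : ∀ w : E3, (rot (2 * Real.pi / n) w : E3) = rotF (2 * Real.pi / n) w :=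
          fun w => rot_eq _ w
        exact (congrArg (fun w : E3 => (rot (2 * Real.pi / n) (φ w) : E3)) a1).trans (a2 _)
      rw [e4] at e1
      have e5 := (e3.symm.trans e1).trans e2
      exact sub_eq_zero.mpr e5) hp
    exact sub_eq_zero.mp key
  obtain ⟨C, v, Fr, hv0, hv⟩ := nf_mid hloc huni hΩ hb hρ hR hsub' hn hrot' hν hI
    hF h0 hcomp hUu hFs' hE0 hE hΦ hB0 hB hcond
  refine ⟨v, deriv v, gz (graphW Ω) v, deriv (gz (graphW Ω) v), hv0,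
    fun T hT => ⟨strong_of_str hΩ (hI T hT) (hv T hT) (fun _ _ => rfl), ?_⟩⟩
  intro w D h1 h2 h3 h4 h5 hw0
  have hFc : ContinuousOn F (Icc 0 T) := prim_cont (hF T hT).memLp (hF T hT).prim
  have hLH := lh_mid hΩ hFc Fr h1 h2 h3 h4 h5
  exact (huni (L2V Ω) (L2M Ω) (graphW Ω) tensL C ν T T F (w 0) w v
    (deriv v) D (gz (graphW Ω) v) (deriv (gz (graphW Ω) v)) Fr hν (hI T hT)
    le_rfl hFc hLH (hv T hT) (by rw [hv0, hw0])).1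

end Pool.Agent.Y303.NF
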