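import Pool.Agent.Y303.RA.Boot

/-!
Existence of a strong solution under a better bound of the quadratic term for the time derivative,
in the abstract frame.
-/

set_option autoImplicit false
set_option linter.unusedSectionVars false

open MeasureTheory Set Filter Topology
open scoped InnerProductSpace

namespace Pool.Agent.Y303.NF

open Pool.Agent.Y303.RA
open Pool.Agent.W795.TQ
open H772R2.NSR (Frame prim_cont memLp_ii ae_deriv_of_prim)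
open H772R2.NSG (St ii_of_int int_inner norm_m_le mem_cont)
open Pool.Agent.W790.TQ (toSt)

/-- a continuous function bounded almost everywhere is bounded -/
theorem ae_le_all {τ c : ℝ} (hτ : 0 < τ) {f : ℝ → ℝ} (hf : ContinuousOn f (Icc 0 τ))
    (h : ∀ᵐ t ∂(volume.restrict (Ioc 0 τ)), f t ≤ c) : ∀ t ∈ Icc 0 τ, f t ≤ c := by
  intro t ht
  by_contra hcon
  rw [not_le] at hcon
  have h1 : f ⁻¹' (Ioi c) ∈ 𝓝[Icc 0 τ] t := hf t ht (Ioi_mem_nhds hcon)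
  obtain ⟨V, hV, htV, hVs⟩ := mem_nhdsWithin.1 h1
  have h2 : t ∈ closure (Ioo 0 τ) := by rw [closure_Ioo hτ.ne]; exact ht
  obtain ⟨y, hy1, hy2⟩ := mem_closure_iff.1 h2 V hV htV
  have hpos : 0 < volume (V ∩ Ioo 0 τ) := (hV.inter isOpen_Ioo).measure_pos volume ⟨y, hy1, hy2⟩
  rw [ae_restrict_iff' measurableSet_Ioc] at h
  refine hpos.ne' (measure_mono_null (t := {x | ¬ (x ∈ Ioc 0 τ → f x ≤ c)}) ?_ h)
  rintro x ⟨hx1, hx2⟩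
  simp only [mem_setOf_eq, not_forall, not_le]
  exact ⟨⟨hx2.1, hx2.2.le⟩, hVs ⟨hx1, ⟨hx2.1.le, hx2.2.le⟩⟩⟩

/-- Young's inequality with two terms -/
theorem young2 {a b ν w y x X : ℝ} (hν : 0 < ν) (ha : 0 ≤ a) (hb : 0 ≤ b) (hw : 0 ≤ w)
    (hy : 0 ≤ y) (hX : X ^ 2 ≤ (a * w ^ 2 + b * (w * y)) * y ^ 2) :
    X * x ≤ ν / 4 * y ^ 2 + (2 * a / ν * x ^ 2 + 54 * b ^ 2 / ν ^ 3 * x ^ 4) * w ^ 2 := by
  set P : ℝ := ν / 8 * y ^ 2 with hP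
  set Q1 : ℝ := 2 * a / ν * x ^ 2 * w ^ 2 with hQ1
  set Q2 : ℝ := 54 * b ^ 2 / ν ^ 3 * x ^ 4 * w ^ 2 with hQ2
  have hP0 : 0 ≤ P := by positivity
  have hQ10 : 0 ≤ Q1 := by positivity
  have hQ20 : 0 ≤ Q2 := by positivity
  have h1 : a * w ^ 2 * y ^ 2 * x ^ 2 ≤ (P + Q1) ^ 2 := by
    have e : a * w ^ 2 * y ^ 2 * x ^ 2 = 4 * (P * Q1) := by
      rw [hP, hQ1]; field_simp; ring
    rw [e]
    nlinarith [sq_nonneg (P - Q1)]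
  have h2 : b * (w * y) * y ^ 2 * x ^ 2 ≤ (P + Q2) ^ 2 := by
    have e : (b * (w * y) * y ^ 2 * x ^ 2) ^ 2 = 256 / 27 * (P ^ 3 * Q2) := by
      rw [hP, hQ2]; field_simp; ring
    have h3 : 256 / 27 * (P ^ 3 * Q2) ≤ (P + Q2) ^ 4 := by
      have : 0 ≤ (P - 3 * Q2) ^ 2 * (27 * P ^ 2 + 14 * (P * Q2) + 3 * Q2 ^ 2) := by positivity
      nlinarith
    have h4 : (b * (w * y) * y ^ 2 * x ^ 2) ^ 2 ≤ ((P + Q2) ^ 2) ^ 2 := by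
      rw [e]
      calc 256 / 27 * (P ^ 3 * Q2) ≤ (P + Q2) ^ 4 := h3
        _ = ((P + Q2) ^ 2) ^ 2 := by ring
    exact (pow_le_pow_iff_left₀ (by positivity) (by positivity) (by norm_num)).mp h4
  have h5 : (X * x) ^ 2 ≤ (P + Q1 + (P + Q2)) ^ 2 := by
    have h6 : (X * x) ^ 2 ≤ a * w ^ 2 * y ^ 2 * x ^ 2 + b * (w * y) * y ^ 2 * x ^ 2 := by
      have := mul_le_mul_of_nonneg_right hX (sq_nonneg x)
      calc (X * x) ^ 2 = X ^ 2 * x ^ 2 := by ring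
        _ ≤ (a * w ^ 2 + b * (w * y)) * y ^ 2 * x ^ 2 := this
        _ = _ := by ring
    have h7 : 0 ≤ (P + Q1) * (P + Q2) := by positivity
    nlinarith
  have h8 := (abs_le_of_sq_le_sq' h5 (by positivity)).2
  have e : P + Q1 + (P + Q2)
      = ν / 4 * y ^ 2 + (2 * a / ν * x ^ 2 + 54 * b ^ 2 / ν ^ 3 * x ^ 4) * w ^ 2 := by
    rw [hP, hQ1, hQ2]; ring
  rwa [e] at h8

variable {H K : Type} [NormedAddCommGroup H] [InnerProductSpace ℝ H] [CompleteSpace H]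
  [NormedAddCommGroup K] [InnerProductSpace ℝ K] [CompleteSpace K]
  {W : Submodule ℝ (H × K)} {m : H → K} {C ν T τ : ℝ} {F F1 : ℝ → K} {u u1 : ℝ → H}
  {z z1 : ℝ → K}

/-- the energy bound -/
theorem energy_bd (hν : 0 < ν) (hF : ContinuousOn F (Icc 0 τ))
    (S : Str W m ν τ F u u1 z z1) {E : ℝ}
    (hE : ∀ t ∈ Icc 0 τ, ‖u 0‖ ^ 2 + (∫ s in (0 : ℝ)..t, ‖F s‖ ^ 2) / ν ≤ E ^ 2) :
    ∀ t ∈ Icc 0 τ, ‖u t‖ ^ 2 + ν * (∫ s in (0 : ℝ)..t, ‖z s‖ ^ 2) ≤ E ^ 2 := by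
  intro t ht
  have hzc : ContinuousOn z (Icc 0 τ) := prim_cont S.z1m S.pz
  have hs : Icc 0 t ⊆ Icc 0 τ := Icc_subset_Icc_right ht.2
  have i1 : IntervalIntegrable (fun s => ‖z s‖ ^ 2) volume 0 t := by
    refine ContinuousOn.intervalIntegrable ?_
    rw [uIcc_of_le ht.1]
    exact ((hzc.mono hs).norm.pow 2)
  have i2 : IntervalIntegrable (fun s => ‖F s‖ ^ 2) volume 0 t := by
    refine ContinuousOn.intervalIntegrable ?_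
    rw [uIcc_of_le ht.1]
    exact ((hF.mono hs).norm.pow 2)
  have i3 : IntervalIntegrable (fun s => ⟪F s, z s⟫_ℝ) volume 0 t := by
    refine ContinuousOn.intervalIntegrable ?_
    rw [uIcc_of_le ht.1]
    exact (hF.mono hs).inner (hzc.mono hs)
  have h1 := S.energy t ht
  have h2 : ∫ s in (0 : ℝ)..t, ⟪F s, z s⟫_ℝ
      ≤ ∫ s in (0 : ℝ)..t, (ν / 2 * ‖z s‖ ^ 2 + 1 / (2 * ν) * ‖F s‖ ^ 2) := by
    refine intervalIntegral.integral_mono_on ht.1 i3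
      ((i1.const_mul _).add (i2.const_mul _)) fun s _ => ?_
    have k1 : ⟪F s, z s⟫_ℝ ≤ ‖F s‖ * ‖z s‖ := real_inner_le_norm _ _
    have k2 : 0 ≤ (ν * ‖z s‖ - ‖F s‖) ^ 2 / (2 * ν) := by positivity
    have e : (ν * ‖z s‖ - ‖F s‖) ^ 2 / (2 * ν)
        = ν / 2 * ‖z s‖ ^ 2 - ‖F s‖ * ‖z s‖ + 1 / (2 * ν) * ‖F s‖ ^ 2 := by
      field_simp; ring
    linarith
  rw [intervalIntegral.integral_add (i1.const_mul _) (i2.const_mul _),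
    intervalIntegral.integral_const_mul, intervalIntegral.integral_const_mul] at h2
  have h3 := hE t ht
  have e : (∫ s in (0 : ℝ)..t, ‖F s‖ ^ 2) / ν = 2 * (1 / (2 * ν) * ∫ s in (0 : ℝ)..t, ‖F s‖ ^ 2) := by
    field_simp
  rw [e] at h3
  linarith

/-- the bound of the gradient in terms of the time derivative -/
theorem grad_bd (Fr : Frame W m C) (hν : 0 < ν) (hτ : 0 < τ) (hF : FH τ F F1)
    (S : Str W m ν τ F u u1 z z1) {E Φ Y : ℝ} (hE0 : 0 ≤ E) (hu : ∀ t ∈ Icc 0 τ, ‖u t‖ ≤ E)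
    (hΦ : ∀ t ∈ Icc 0 τ, ‖F t‖ ≤ Φ)
    (hY : ∀ᵐ t ∂(volume.restrict (Ioc 0 τ)), ‖u1 t‖ ≤ Y) :
    ∀ t ∈ Icc 0 τ, ‖z t‖ ^ 2 ≤ Φ ^ 2 / ν ^ 2 + 2 * E * Y / ν := by
  have hzc : ContinuousOn z (Icc 0 τ) := prim_cont S.z1m S.pz
  refine ae_le_all hτ (hzc.norm.pow 2) ?_
  obtain ⟨Z, St1⟩ := toSt hF S
  filter_upwards [St1.deriv_weak Fr hτ, hY, ae_restrict_mem measurableSet_Ioc] with t h1 h2 ht
  have htI := Ioc_subset_Icc_self ht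
  have e1 := h1 _ (S.mem t htI)
  simp only at e1
  have e2 : ⟪m (u t), z t⟫_ℝ = 0 := Fr.ortho _ (S.mem t htI)
  rw [inner_add_left, inner_sub_left, inner_smul_left, real_inner_self_eq_norm_sq, e2] at e1
  simp only [conj_trivial, add_zero] at e1
  have k1 : ⟪F t, z t⟫_ℝ ≤ ‖F t‖ * ‖z t‖ := real_inner_le_norm _ _
  have k2 : -⟪u1 t, u t⟫_ℝ ≤ ‖u1 t‖ * ‖u t‖ := by
    have := abs_real_inner_le_norm (u1 t) (u t)
    have := neg_abs_le ⟪u1 t, u t⟫_ℝ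
    linarith
  have hY0 : 0 ≤ Y := (norm_nonneg _).trans h2
  have k3 : ‖u1 t‖ * ‖u t‖ ≤ Y * E := mul_le_mul h2 (hu t htI) (norm_nonneg _) hY0
  have hΦ0 : 0 ≤ Φ := (norm_nonneg _).trans (hΦ t htI)
  have k4 : ‖F t‖ * ‖z t‖ ≤ Φ * ‖z t‖ := by
    have := hΦ t htI
    gcongr
  have k5 : Φ * ‖z t‖ ≤ ν / 2 * ‖z t‖ ^ 2 + Φ ^ 2 / (2 * ν) := by
    have : 0 ≤ (ν * ‖z t‖ - Φ) ^ 2 / (2 * ν) := by positivity
    have e : (ν * ‖z t‖ - Φ) ^ 2 / (2 * ν) = ν / 2 * ‖z t‖ ^ 2 - Φ * ‖z t‖ + Φ ^ 2 / (2 * ν) := by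
      field_simp; ring
    linarith
  have k6 : ν / 2 * ‖z t‖ ^ 2 ≤ Φ ^ 2 / (2 * ν) + E * Y := by linarith
  have e3 : Φ ^ 2 / ν ^ 2 + 2 * E * Y / ν = (Φ ^ 2 / (2 * ν) + E * Y) * (2 / ν) := by
    field_simp
  rw [e3]
  calc ‖z t‖ ^ 2 = ν / 2 * ‖z t‖ ^ 2 * (2 / ν) := by field_simp
    _ ≤ _ := by gcongr

/-- **Existence of a strong solution.** -/
theorem exist_of (hloc : S_loc) (Fr : Frame W m C) (hm : Hom W m)
    (hcomp : ∀ R : ℝ, TotallyBounded {v : H | ∃ z, (v, z) ∈ W ∧ ‖z‖ ≤ R})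
    (hν : 0 < ν) (hT : 0 < T) (hF : FH T F F1) {x0 g0 : H} {z0 : K} (h0 : (x0, z0) ∈ W)
    (hg : ∀ p ∈ W, ⟪F 0 - ν • z0 + m x0, p.2⟫_ℝ = ⟪g0, p.1⟫_ℝ)
    {a b E Φ B Y : ℝ} (ha : 0 ≤ a) (hb : 0 ≤ b) (hE0 : 0 ≤ E)
    (hE : ∀ t ∈ Icc 0 T, ‖x0‖ ^ 2 + (∫ s in (0 : ℝ)..t, ‖F s‖ ^ 2) / ν ≤ E ^ 2)
    (hΦ : ∀ t ∈ Icc 0 T, ‖F t‖ ≤ Φ)
    (hB0 : 0 ≤ B) (hB : 16 * ‖g0‖ ^ 2 + 2 / (3 * ν) * (∫ s in (0 : ℝ)..T, ‖F1 s‖ ^ 2) < B ^ 2)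
    (hY : Y = B * Real.exp (2 * a * E ^ 2 / ν ^ 2 + 1 / 2))
    (hcond : 108 * b ^ 2 * E ^ 2 * (Φ ^ 2 + 2 * ν * E * Y) ≤ ν ^ 6)
    (hine : ∀ τ ∈ Ioc 0 T, ∀ (u u1 : ℝ → H) (z z1 : ℝ → K), Str W m ν τ F u u1 z z1 → u 0 = x0 →
      ∀ᵐ t ∂(volume.restrict (Ioc 0 τ)),
        ‖m (u1 t)‖ ^ 2 ≤ (a * ‖u1 t‖ ^ 2 + b * (‖u1 t‖ * ‖z1 t‖)) * ‖z1 t‖ ^ 2) :
    ∃ (u u1 : ℝ → H) (z z1 : ℝ → K), Str W m ν T F u u1 z z1 ∧ u 0 = x0 := by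
  have hFc : ContinuousOn F (Icc 0 T) := prim_cont hF.memLp hF.prim
  have hY0 : 0 ≤ Y := by rw [hY]; positivity
  have hΦ0 : 0 ≤ Φ := (norm_nonneg _).trans (hΦ 0 ⟨le_rfl, hT.le⟩)
  set c : ℝ := Φ ^ 2 / ν ^ 2 + 2 * E * Y / ν with hc
  have hc0 : 0 ≤ c := by positivity
  set N : ℝ := ‖z0‖ + (c + 1) with hN
  have hN0 : ‖z0‖ < N := by rw [hN]; linarith
  obtain ⟨τ, u, u1, z, z1, hτ, hτT, S, hu0, hend⟩ :=
    hloc H K W m C ν T F F1 x0 g0 z0 N Fr hcomp hν hT hF h0 hg hN0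
  have hFH : ∀ T' ≤ T, FH T' F F1 := fun T' hT' =>
    ⟨hF.memLp.mono_measure (Measure.restrict_mono (Ioc_subset_Ioc_right hT') le_rfl),
      fun a b ha hab hb => hF.prim a b ha hab (hb.trans hT')⟩
  have hz0 : z 0 = z0 := by
    have h1 : (u 0, z 0) ∈ W := S.mem 0 ⟨le_rfl, hτ.le⟩
    rw [hu0] at h1
    have h2 : (x0, z 0) - (x0, z0) ∈ W := W.sub_mem h1 h0
    have h3 := Fr.uniq _ h2 (by simp)
    simpa [sub_eq_zero] using h3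
  have hEτ : ∀ t ∈ Icc 0 τ, ‖u 0‖ ^ 2 + (∫ s in (0 : ℝ)..t, ‖F s‖ ^ 2) / ν ≤ E ^ 2 := by
    intro t ht
    rw [hu0]
    exact hE t ⟨ht.1, ht.2.trans hτT⟩
  have hen := energy_bd hν (hFc.mono (Icc_subset_Icc_right hτT)) S hEτ
  have hI0 : ∀ t ∈ Icc 0 τ, 0 ≤ ∫ s in (0 : ℝ)..t, ‖z s‖ ^ 2 := fun t ht =>
    intervalIntegral.integral_nonneg ht.1 fun s _ => by positivity
  have huE : ∀ t ∈ Icc 0 τ, ‖u t‖ ≤ E := by
    intro t ht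
    have h1 := hen t ht
    have h2 : 0 ≤ ν * ∫ s in (0 : ℝ)..t, ‖z s‖ ^ 2 := mul_nonneg hν.le (hI0 t ht)
    have h3 : ‖u t‖ ^ 2 ≤ E ^ 2 := by linarith
    exact (pow_le_pow_iff_left₀ (norm_nonneg _) hE0 (by norm_num)).mp h3
  have hzI : ∀ t ∈ Icc 0 τ, (∫ s in (0 : ℝ)..t, ‖z s‖ ^ 2) ≤ E ^ 2 / ν := by
    intro t ht
    rw [le_div_iff₀ hν]
    have h1 := hen t ht
    have h2 : 0 ≤ ‖u t‖ ^ 2 := by positivity
    linarith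
  have hzc : ContinuousOn z (Icc 0 τ) := prim_cont S.z1m S.pz
  set L : ℝ := 2 * a * E ^ 2 / ν ^ 2 + 1 / 2 with hL
  have hL0 : 0 ≤ L := by positivity
  have hYb : (16 * ‖g0‖ ^ 2 + (∫ s in (0 : ℝ)..T, ‖F1 s‖ ^ 2) / (2 * (3 / 4) * ν))
      * Real.exp (2 * L) < Y ^ 2 := by
    have e1 : (∫ s in (0 : ℝ)..T, ‖F1 s‖ ^ 2) / (2 * (3 / 4) * ν)
        = 2 / (3 * ν) * (∫ s in (0 : ℝ)..T, ‖F1 s‖ ^ 2) := by
      field_simp
      ring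
    have e2 : Y ^ 2 = B ^ 2 * Real.exp (2 * L) := by
      rw [hY, mul_pow, ← Real.exp_nat_mul]
      norm_num
    rw [e1, e2]
    have := Real.exp_pos (2 * L)
    gcongr
  have hbd := boot Fr hm hν hτ hτT hF (fun t ht => S.mono ht.2.le) (g0 := g0) (by
    rw [hz0, hu0]; exact hg) (δ := 3 / 4) (L := L) (Y := Y) (by norm_num) hL0 hY0 hYb (by
    intro t ht hYt
    have htI : t ∈ Icc 0 τ := ⟨ht.1.le, ht.2.le⟩
    have St := S.mono ht.2.le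
    have hzb := grad_bd Fr hν ht.1 (hFH t (ht.2.le.trans hτT)) St hE0
      (fun s hs => huE s ⟨hs.1, hs.2.trans ht.2.le⟩)
      (fun s hs => hΦ s ⟨hs.1, hs.2.trans (ht.2.le.trans hτT)⟩) hYt
    have hzct : ContinuousOn z (Icc 0 t) := hzc.mono (Icc_subset_Icc_right ht.2.le)
    refine ⟨fun s => 2 * a / ν * ‖z s‖ ^ 2 + 54 * b ^ 2 / ν ^ 3 * ‖z s‖ ^ 4,
      fun s => by positivity, ?_, ?_, ?_⟩
    · have : ContinuousOn (fun s => 2 * a / ν * ‖z s‖ ^ 2 + 54 * b ^ 2 / ν ^ 3 * ‖z s‖ ^ 4)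
        (Icc 0 t) := (continuousOn_const.mul (hzct.norm.pow 2)).add
          (continuousOn_const.mul (hzct.norm.pow 4))
      exact this.integrableOn_Icc.mono_set Ioc_subset_Icc_self
    · have i1 : IntervalIntegrable (fun s => ‖z s‖ ^ 2) volume 0 t := by
        refine ContinuousOn.intervalIntegrable ?_
        rw [uIcc_of_le ht.1.le]
        exact hzct.norm.pow 2
      have i2 : IntervalIntegrable (fun s => 2 * a / ν * ‖z s‖ ^ 2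
          + 54 * b ^ 2 / ν ^ 3 * ‖z s‖ ^ 4) volume 0 t := by
        refine ContinuousOn.intervalIntegrable ?_
        rw [uIcc_of_le ht.1.le]
        exact (continuousOn_const.mul (hzct.norm.pow 2)).add
          (continuousOn_const.mul (hzct.norm.pow 4))
      have h1 : ∫ s in (0 : ℝ)..t, (2 * a / ν * ‖z s‖ ^ 2 + 54 * b ^ 2 / ν ^ 3 * ‖z s‖ ^ 4)
          ≤ ∫ s in (0 : ℝ)..t, (2 * a / ν + 54 * b ^ 2 / ν ^ 3 * c) * ‖z s‖ ^ 2 := by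
        refine intervalIntegral.integral_mono_on ht.1.le i2 (i1.const_mul _) fun s hs => ?_
        have h2 := hzb s hs
        have h3 : ‖z s‖ ^ 4 ≤ c * ‖z s‖ ^ 2 := by
          calc ‖z s‖ ^ 4 = ‖z s‖ ^ 2 * ‖z s‖ ^ 2 := by ring
            _ ≤ c * ‖z s‖ ^ 2 := by gcongr
        have h4 : 54 * b ^ 2 / ν ^ 3 * ‖z s‖ ^ 4 ≤ 54 * b ^ 2 / ν ^ 3 * (c * ‖z s‖ ^ 2) := by
          gcongr
        calc 2 * a / ν * ‖z s‖ ^ 2 + 54 * b ^ 2 / ν ^ 3 * ‖z s‖ ^ 4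
            ≤ 2 * a / ν * ‖z s‖ ^ 2 + 54 * b ^ 2 / ν ^ 3 * (c * ‖z s‖ ^ 2) := by linarith
          _ = _ := by ring
      rw [intervalIntegral.integral_const_mul] at h1
      have h5 : (2 * a / ν + 54 * b ^ 2 / ν ^ 3 * c) * (∫ s in (0 : ℝ)..t, ‖z s‖ ^ 2)
          ≤ (2 * a / ν + 54 * b ^ 2 / ν ^ 3 * c) * (E ^ 2 / ν) := by
        have := hzI t htI
        gcongr
      have h6 : (2 * a / ν + 54 * b ^ 2 / ν ^ 3 * c) * (E ^ 2 / ν)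
          = 2 * a * E ^ 2 / ν ^ 2 + 108 * b ^ 2 * E ^ 2 * (Φ ^ 2 + 2 * ν * E * Y) / (2 * ν ^ 6) := by
        rw [hc]
        field_simp
        ring
      have h7 : 108 * b ^ 2 * E ^ 2 * (Φ ^ 2 + 2 * ν * E * Y) / (2 * ν ^ 6) ≤ 1 / 2 := by
        rw [div_le_div_iff₀ (by positivity) (by norm_num)]
        linarith
      rw [hL]
      linarith
    · filter_upwards [hine t ⟨ht.1, ht.2.le.trans hτT⟩ u u1 z z1 St hu0] with s hs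
      have h1 := young2 (x := ‖z s‖) hν ha hb (norm_nonneg _) (norm_nonneg _) hs
      have h2 : -⟪m (u1 s), z s⟫_ℝ ≤ ‖m (u1 s)‖ * ‖z s‖ := by
        have := abs_real_inner_le_norm (m (u1 s)) (z s)
        have := neg_abs_le ⟪m (u1 s), z s⟫_ℝ
        linarith
      have e : (1 - 3 / 4) * ν = ν / 4 := by ring
      rw [e]
      linarith)
  -- the bound of the gradient up to `τ`
  have hbd' : ∀ᵐ t ∂(volume.restrict (Ioc 0 τ)), ‖u1 t‖ ≤ Y := by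
    have hne : ∀ᵐ s ∂(volume.restrict (Ioc 0 τ)), s ≠ τ := by
      refine ae_restrict_of_ae ?_
      simp [ae_iff, measure_singleton]
    rw [ae_restrict_iff' measurableSet_Ioo] at hbd
    rw [ae_restrict_iff' measurableSet_Ioc] at hne ⊢
    filter_upwards [hbd, hne] with t h1 h2 h3
    exact h1 ⟨h3.1, lt_of_le_of_ne h3.2 (h2 h3)⟩
  have hzb := grad_bd Fr hν hτ (hFH τ hτT) S hE0 huE
    (fun s hs => hΦ s ⟨hs.1, hs.2.trans hτT⟩) hbd' τ ⟨hτ.le, le_rfl⟩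
  rcases hend with h1 | h1
  · rw [h1] at S
    exact ⟨u, u1, z, z1, S, hu0⟩
  · exfalso
    have h2 : c + 1 ≤ ‖z τ‖ := by
      have := norm_nonneg z0
      linarith
    have h3 : (c + 1) ^ 2 ≤ ‖z τ‖ ^ 2 := pow_le_pow_left₀ (by positivity) h2 2
    nlinarith

end Pool.Agent.Y303.NF
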