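import Pool.Agent.Y303.NF.Ineq2

/-!
The inequality of Ladyzhenskaya type for fields in `H¹_{0,σ}` which are invariant under a rotation
by `2π/n`.
-/

set_option autoImplicit false
set_option linter.unusedSectionVars false

open MeasureTheory Set Filter Topology
open scoped InnerProductSpace ENNReal ContDiff NNReal

namespace Pool.Agent.Y303.NF

open H772R2.NS
open Pool.Agent.W52.TQ (cs_sq eLp2_sq)

variable {Ω : Set E3} {φ : E3 → E3} {ρ R : ℝ} {n : ℕ}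

theorem off_int (hm : MeasurableSet Ω) {f : E3 → ℝ≥0∞} (hf : ∀ x, x ∉ Ω → f x = 0) :
    ∫⁻ x, f x = ∫⁻ x in Ω, f x := by
  rw [← lintegral_indicator hm]
  refine lintegral_congr fun x => ?_
  by_cases hx : x ∈ Ω
  · rw [indicator_of_mem hx]
  · rw [indicator_of_notMem hx, hf x hx]

theorem toReal_sq_le {x y z : ℝ≥0∞} (h : x ^ 2 ≤ y ^ 2 * z ^ 2) : x ≤ y * z := by
  rw [← mul_pow] at h
  exact (ENNReal.pow_le_pow_left_iff (by norm_num)).1 h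

theorem ineq_pre (hm : MeasurableSet Ω) (hρ : 0 < ρ) (hR : 0 < R)
    (hsub : ∀ x ∈ Ω, ρ ^ 2 ≤ x 0 ^ 2 + x 1 ^ 2 ∧ x 0 ^ 2 + x 1 ^ 2 ≤ R ^ 2) (hn : 0 < n)
    {p : L2V Ω × L2M Ω} (h : IsTest Ω φ) (h1 : p.1 =ᵐ[volume.restrict Ω] φ)
    (h2 : p.2 =ᵐ[volume.restrict Ω] jac φ) (hsym : rotT (2 * Real.pi / n) φ = φ) :
    ρ * ‖tensL p.1‖ ^ 2 ≤ (1 / (2 * Real.pi) * ‖p.1‖ ^ 2 + 2 * R / n * (‖p.1‖ * ‖p.2‖))
      * ‖p.2‖ ^ 2 := by
  have hn' : (0 : ℝ) < n := by exact_mod_cast hn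
  have hpi := Real.pi_pos
  have hp : p ∈ graphW Ω := Submodule.le_topologicalClosure _ ⟨φ, h, h1, h2⟩
  have hoff : ∀ x, x ∉ Ω → φ x = 0 := fun x hx =>
    image_eq_zero_of_notMem_tsupport fun hc => hx (h.supp hc)
  have hoffj : ∀ x, x ∉ Ω → jac φ x = 0 := fun x hx =>
    image_eq_zero_of_notMem_tsupport fun hc => hx (h.supp (tsupport_jac_subset hc))
  have hφm : Measurable fun x => ‖φ x‖ₑ := h.smooth.continuous.enorm.measurable
  have hjm : Measurable fun x => ‖jac φ x‖ₑ := (continuous_jac h.smooth).enorm.measurable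
  have key := ineq_test h hρ hR hsub hn hsym
  have e4 : ∫⁻ x, ‖φ x‖ₑ ^ 4 = ‖tensL p.1‖ₑ ^ 2 := by
    rw [off_int hm fun x hx => by rw [hoff x hx]; simp]
    rw [Lp.enorm_def, ← eLp2_sq]
    refine lintegral_congr_ae ?_
    filter_upwards [tensL_coe hm hp, h1] with x k1 k2
    rw [k1, k2, ← ofReal_norm, ← ofReal_norm, norm_tens, ← ENNReal.ofReal_pow (norm_nonneg _),
      ← ENNReal.ofReal_pow (by positivity)]
    congr 1
    ring
  have e2 : ∫⁻ x, ‖φ x‖ₑ ^ 2 = ‖p.1‖ₑ ^ 2 := by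
    rw [off_int hm fun x hx => by rw [hoff x hx]; simp]
    rw [Lp.enorm_def, ← eLp2_sq]
    refine lintegral_congr_ae ?_
    filter_upwards [h1] with x k2
    rw [k2]
  have ej : ∫⁻ x, ‖jac φ x‖ₑ ^ 2 = ‖p.2‖ₑ ^ 2 := by
    rw [off_int hm fun x hx => by rw [hoffj x hx]; simp]
    rw [Lp.enorm_def, ← eLp2_sq]
    refine lintegral_congr_ae ?_
    filter_upwards [h2] with x k2
    rw [k2]
  have ex : ∫⁻ x, ‖φ x‖ₑ * ‖jac φ x‖ₑ ≤ ‖p.1‖ₑ * ‖p.2‖ₑ := by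
    refine toReal_sq_le ?_
    rw [← e2, ← ej]
    exact cs_sq hφm.aemeasurable hjm.aemeasurable
  rw [e4, e2, ej] at key
  have key2 : ENNReal.ofReal ρ * ‖tensL p.1‖ₑ ^ 2 ≤ (ENNReal.ofReal (1 / (2 * Real.pi)) * ‖p.1‖ₑ ^ 2
      + ENNReal.ofReal (2 * R / n) * (‖p.1‖ₑ * ‖p.2‖ₑ)) * ‖p.2‖ₑ ^ 2 := by
    refine key.trans ?_
    gcongr
  have key3 := ENNReal.toReal_mono (by finiteness) key2
  rw [ENNReal.toReal_mul, ENNReal.toReal_mul, ENNReal.toReal_add (by finiteness) (by finiteness),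
    ENNReal.toReal_mul, ENNReal.toReal_mul, ENNReal.toReal_mul, ENNReal.toReal_pow,
    ENNReal.toReal_pow, ENNReal.toReal_pow, toReal_enorm, toReal_enorm, toReal_enorm,
    ENNReal.toReal_ofReal hρ.le, ENNReal.toReal_ofReal (by positivity),
    ENNReal.toReal_ofReal (by positivity)] at key3
  exact key3

/-! ### symmetric approximation -/

theorem rotT_rotT (α β : ℝ) (φ : E3 → E3) : rotT α (rotT β φ) = rotT (α + β) φ := by
  funext x
  unfold rotT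
  rw [rotF_rotF, rotF_rotF]
  congr 3
  ring

theorem rotF_two_pi (x : E3) : rotF (2 * Real.pi) x = x := by
  ext i
  fin_cases i
  · show rotF (2 * Real.pi) x 0 = x 0
    rw [rotF_0]; simp
  · show rotF (2 * Real.pi) x 1 = x 1
    rw [rotF_1]; simp
  · rfl

theorem rotT_two_pi (φ : E3 → E3) : rotT (2 * Real.pi) φ = φ := by
  funext x
  unfold rotT
  rw [rotF_two_pi]
  congr 1
  rw [← rotF_two_pi (rotF (-(2 * Real.pi)) x), rotF_neg]

theorem rotT_zero (φ : E3 → E3) : rotT 0 φ = φ := by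
  funext x
  unfold rotT
  rw [neg_zero, rotF_zero, rotF_zero]

theorem rotT_add (α : ℝ) (φ ψ : E3 → E3) : rotT α (φ + ψ) = rotT α φ + rotT α ψ := by
  funext x
  exact rotF_add' α _ _

theorem rotT_smul (α c : ℝ) (φ : E3 → E3) : rotT α (c • φ) = c • rotT α φ := by
  funext x
  exact rotF_smul α c _

theorem rotT_sum (α : ℝ) (s : Finset ℕ) (f : ℕ → E3 → E3) :
    rotT α (∑ j ∈ s, f j) = ∑ j ∈ s, rotT α (f j) := by
  classical
  induction s using Finset.induction_on with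
  | empty =>
    funext x
    simp only [Finset.sum_empty]
    show rotF α 0 = 0
    exact map_zero (rotE α)
  | insert a s ha ih => rw [Finset.sum_insert ha, Finset.sum_insert ha, rotT_add, ih]

/-- the average over the rotations -/
noncomputable def avgT (n : ℕ) (φ : E3 → E3) : E3 → E3 :=
  (n : ℝ)⁻¹ • ∑ j ∈ Finset.range n, rotT (j * (2 * Real.pi / n)) φ

theorem avgT_sym (hn : 0 < n) (φ : E3 → E3) : rotT (2 * Real.pi / n) (avgT n φ) = avgT n φ := by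
  have hn' : (n : ℝ) ≠ 0 := by positivity
  unfold avgT
  rw [rotT_smul, rotT_sum]
  congr 1
  have e1 : ∀ j : ℕ, rotT (2 * Real.pi / n) (rotT (j * (2 * Real.pi / n)) φ)
      = rotT ((j + 1 : ℕ) * (2 * Real.pi / n)) φ := by
    intro j
    rw [rotT_rotT]
    congr 1
    push_cast
    ring
  simp only [e1]
  have h1 := Finset.sum_range_succ (fun j : ℕ => rotT (j * (2 * Real.pi / n)) φ) n
  have h2 := Finset.sum_range_succ' (fun j : ℕ => rotT (j * (2 * Real.pi / n)) φ) n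
  rw [h1] at h2
  have h3 : rotT ((n : ℝ) * (2 * Real.pi / n)) φ = φ := by
    rw [show (n : ℝ) * (2 * Real.pi / n) = 2 * Real.pi by field_simp, rotT_two_pi]
  have h4 : rotT (((0 : ℕ) : ℝ) * (2 * Real.pi / n)) φ = φ := by
    rw [Nat.cast_zero, zero_mul, rotT_zero]
  rw [h3, h4] at h2
  exact (add_right_cancel h2).symm

/-- pairs of test fields which are invariant -/
def PS (Ω : Set E3) (n : ℕ) : Set (L2V Ω × L2M Ω) :=
  {q | ∃ φ, IsTest Ω φ ∧ q.1 =ᵐ[volume.restrict Ω] φ ∧ q.2 =ᵐ[volume.restrict Ω] jac φ ∧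
    rotT (2 * Real.pi / n) φ = φ}

section avg

variable {α : ℝ}

/-- the average -/
noncomputable def avgP (hm : MeasurableSet Ω) (h : Inv α Ω) (n : ℕ) (q : L2V Ω × L2M Ω) :
    L2V Ω × L2M Ω :=
  ((n : ℝ)⁻¹ • ∑ j ∈ Finset.range n, (UI hm h)^[j] q.1,
    (n : ℝ)⁻¹ • ∑ j ∈ Finset.range n, (VI hm h)^[j] q.2)

theorem avgP_cont (hm : MeasurableSet Ω) (h : Inv α Ω) (n : ℕ) : Continuous (avgP hm h n) := by
  have h1 : Continuous fun q : L2V Ω × L2M Ω => ∑ j ∈ Finset.range n, (UI hm h)^[j] q.1 :=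
    continuous_finsetSum _ fun j _ => ((UI hm h).continuous.iterate j).comp continuous_fst
  have h2 : Continuous fun q : L2V Ω × L2M Ω => ∑ j ∈ Finset.range n, (VI hm h)^[j] q.2 :=
    continuous_finsetSum _ fun j _ => ((VI hm h).continuous.iterate j).comp continuous_snd
  exact (h1.const_smul (n : ℝ)⁻¹).prodMk (h2.const_smul (n : ℝ)⁻¹)

theorem avgP_fix (hm : MeasurableSet Ω) (h : Inv α Ω) (hn : 0 < n) {q : L2V Ω × L2M Ω}
    (h1 : UI hm h q.1 = q.1) (h2 : VI hm h q.2 = q.2) : avgP hm h n q = q := by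
  have hn' : (n : ℝ) ≠ 0 := by positivity
  have e1 : ∀ j, (UI hm h)^[j] q.1 = q.1 := fun j => Function.iterate_fixed h1 j
  have e2 : ∀ j, (VI hm h)^[j] q.2 = q.2 := fun j => Function.iterate_fixed h2 j
  unfold avgP
  simp only [e1, e2, Finset.sum_const, Finset.card_range]
  ext1
  · show (n : ℝ)⁻¹ • n • q.1 = q.1
    rw [← Nat.cast_smul_eq_nsmul ℝ, smul_smul, inv_mul_cancel₀ hn', one_smul]
  · show (n : ℝ)⁻¹ • n • q.2 = q.2
    rw [← Nat.cast_smul_eq_nsmul ℝ, smul_smul, inv_mul_cancel₀ hn', one_smul]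

theorem iter_test (hm : MeasurableSet Ω) (h : Inv α Ω) {q : L2V Ω × L2M Ω} (hφ : IsTest Ω φ)
    (h1 : q.1 =ᵐ[volume.restrict Ω] φ) (h2 : q.2 =ᵐ[volume.restrict Ω] jac φ) (j : ℕ) :
    IsTest Ω (rotT (j * α) φ) ∧ (UI hm h)^[j] q.1 =ᵐ[volume.restrict Ω] rotT (j * α) φ ∧
      (VI hm h)^[j] q.2 =ᵐ[volume.restrict Ω] jac (rotT (j * α) φ) := by
  induction j with
  | zero =>
    rw [Nat.cast_zero, zero_mul, rotT_zero]
    exact ⟨hφ, h1, h2⟩
  | succ j ih =>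
    obtain ⟨k1, k2, k3⟩ := ih
    have e : rotT (((j + 1 : ℕ) : ℝ) * α) φ = rotT α (rotT (j * α) φ) := by
      rw [rotT_rotT]
      congr 1
      push_cast
      ring
    rw [e, Function.iterate_succ_apply', Function.iterate_succ_apply']
    exact ⟨rotT_test h k1, UI_test hm h k2, VI_test hm h k1.smooth k3⟩

theorem sum_test (hm : MeasurableSet Ω) (h : Inv α Ω) {q : L2V Ω × L2M Ω} (hφ : IsTest Ω φ)
    (h1 : q.1 =ᵐ[volume.restrict Ω] φ) (h2 : q.2 =ᵐ[volume.restrict Ω] jac φ) (k : ℕ) :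
    IsTest Ω (∑ j ∈ Finset.range k, rotT (j * α) φ) ∧
      ((∑ j ∈ Finset.range k, (UI hm h)^[j] q.1 : L2V Ω) : E3 → E3) =ᵐ[volume.restrict Ω]
        (∑ j ∈ Finset.range k, rotT (j * α) φ) ∧
      ((∑ j ∈ Finset.range k, (VI hm h)^[j] q.2 : L2M Ω) : E3 → M3) =ᵐ[volume.restrict Ω]
        jac (∑ j ∈ Finset.range k, rotT (j * α) φ) := by
  induction k with
  | zero =>
    simp only [Finset.range_zero, Finset.sum_empty]
    refine ⟨IsTest.zero, Lp.coeFn_zero _ _ _, ?_⟩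
    filter_upwards [Lp.coeFn_zero M3 2 (volume.restrict Ω)] with x hx
    rw [hx, jac_zero]
    rfl
  | succ k ih =>
    obtain ⟨k1, k2, k3⟩ := ih
    obtain ⟨l1, l2, l3⟩ := iter_test hm h hφ h1 h2 k
    simp only [Finset.sum_range_succ]
    refine ⟨k1.add l1, ?_, ?_⟩
    · filter_upwards [Lp.coeFn_add (∑ j ∈ Finset.range k, (UI hm h)^[j] q.1)
        ((UI hm h)^[k] q.1), k2, l2] with x m1 m2 m3
      rw [m1, Pi.add_apply, m2, m3]
      rfl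
    · filter_upwards [Lp.coeFn_add (∑ j ∈ Finset.range k, (VI hm h)^[j] q.2)
        ((VI hm h)^[k] q.2), k3, l3] with x m1 m2 m3
      rw [m1, Pi.add_apply, m2, m3, jac_add k1.smooth l1.smooth]

theorem avgP_pre (hm : MeasurableSet Ω) (h : Inv (2 * Real.pi / n) Ω) (hn : 0 < n)
    {q : L2V Ω × L2M Ω} (hq : q ∈ preW Ω) : avgP hm h n q ∈ PS Ω n := by
  obtain ⟨φ, h1, h2, h3⟩ := hq
  obtain ⟨k1, k2, k3⟩ := sum_test hm h h1 h2 h3 n
  refine ⟨avgT n φ, k1.smul _, ?_, ?_, avgT_sym hn φ⟩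
  · filter_upwards [Lp.coeFn_smul (n : ℝ)⁻¹ (∑ j ∈ Finset.range n, (UI hm h)^[j] q.1), k2]
      with x m1 m2
    refine m1.trans ?_
    rw [Pi.smul_apply, m2]
    rfl
  · filter_upwards [Lp.coeFn_smul (n : ℝ)⁻¹ (∑ j ∈ Finset.range n, (VI hm h)^[j] q.2), k3]
      with x m1 m2
    refine m1.trans ?_
    rw [Pi.smul_apply, m2]
    exact (jac_smul _ _).symm

theorem mem_PS (hm : MeasurableSet Ω) (h : Inv (2 * Real.pi / n) Ω) (hn : 0 < n)
    {p : L2V Ω × L2M Ω} (hp : p ∈ graphW Ω) (h1 : UI hm h p.1 = p.1) (h2 : VI hm h p.2 = p.2) :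
    p ∈ closure (PS Ω n) := by
  have hp' : p ∈ closure (preW Ω : Set (L2V Ω × L2M Ω)) := by
    have := hp
    unfold graphW at this
    rwa [← SetLike.mem_coe, Submodule.topologicalClosure_coe] at this
  have h3 : avgP hm h n p ∈ closure (avgP hm h n '' (preW Ω : Set (L2V Ω × L2M Ω))) :=
    image_closure_subset_closure_image (avgP_cont hm h n) ⟨p, hp', rfl⟩
  rw [avgP_fix hm h hn h1 h2] at h3
  refine closure_mono ?_ h3
  rintro _ ⟨q, hq, rfl⟩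
  exact avgP_pre hm h hn hq

end avg

/-- **The inequality of Ladyzhenskaya type.** -/
theorem ineq_W (hm : MeasurableSet Ω) (hρ : 0 < ρ) (hR : 0 < R)
    (hsub : ∀ x ∈ Ω, ρ ^ 2 ≤ x 0 ^ 2 + x 1 ^ 2 ∧ x 0 ^ 2 + x 1 ^ 2 ≤ R ^ 2) (hn : 0 < n)
    (h : Inv (2 * Real.pi / n) Ω) {p : L2V Ω × L2M Ω} (hp : p ∈ graphW Ω)
    (h1 : UI hm h p.1 = p.1) (h2 : VI hm h p.2 = p.2) :
    ‖tensL p.1‖ ^ 2 ≤ (1 / (2 * Real.pi * ρ) * ‖p.1‖ ^ 2
      + 2 * R / (n * ρ) * (‖p.1‖ * ‖p.2‖)) * ‖p.2‖ ^ 2 := by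
  have hn' : (0 : ℝ) < n := by exact_mod_cast hn
  have hpi := Real.pi_pos
  obtain ⟨q, hq, hlim⟩ := mem_closure_iff_seq_limit.mp (mem_PS hm h hn hp h1 h2)
  have hqW : ∀ k, q k ∈ graphW Ω := fun k => by
    obtain ⟨φ, k1, k2, k3, -⟩ := hq k
    exact Submodule.le_topologicalClosure _ ⟨φ, k1, k2, k3⟩
  have hlimW : Tendsto q atTop (𝓝[(graphW Ω : Set _)] p) :=
    tendsto_nhdsWithin_iff.mpr ⟨hlim, Eventually.of_forall hqW⟩
  have t1 : Tendsto (fun k => ρ * ‖tensL (q k).1‖ ^ 2) atTop (𝓝 (ρ * ‖tensL p.1‖ ^ 2)) :=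
    ((((tensL_continuousOn hm p hp).tendsto.comp hlimW).norm.pow 2).const_mul ρ)
  have hG : Continuous fun p : L2V Ω × L2M Ω => (1 / (2 * Real.pi) * ‖p.1‖ ^ 2
      + 2 * R / n * (‖p.1‖ * ‖p.2‖)) * ‖p.2‖ ^ 2 := by fun_prop
  have t2 := (hG.tendsto p).comp hlim
  have h3 : ρ * ‖tensL p.1‖ ^ 2 ≤ (1 / (2 * Real.pi) * ‖p.1‖ ^ 2
      + 2 * R / n * (‖p.1‖ * ‖p.2‖)) * ‖p.2‖ ^ 2 := by
    refine le_of_tendsto_of_tendsto' t1 t2 fun k => ?_
    obtain ⟨φ, k1, k2, k3, k4⟩ := hq k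
    exact ineq_pre hm hρ hR hsub hn k1 k2 k3 k4
  have e : (1 / (2 * Real.pi * ρ) * ‖p.1‖ ^ 2 + 2 * R / (n * ρ) * (‖p.1‖ * ‖p.2‖)) * ‖p.2‖ ^ 2
      = ((1 / (2 * Real.pi) * ‖p.1‖ ^ 2 + 2 * R / n * (‖p.1‖ * ‖p.2‖)) * ‖p.2‖ ^ 2) / ρ := by
    field_simp
  rw [e, le_div_iff₀ hρ]
  linarith

end Pool.Agent.Y303.NF
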