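import Pool.Agent.Y303.NF.Polar
import Pool.Agent.W52.TQ.Univ

/-!
The inequality of Ladyzhenskaya type for fields which are invariant under a rotation by `2π/n`.
-/

set_option autoImplicit false
set_option linter.unusedSectionVars false

open MeasureTheory Set Filter Topology
open scoped InnerProductSpace ENNReal ContDiff NNReal

namespace Pool.Agent.Y303.NF

open H772R2.NS
open Pool.Agent.W52.TQ (cs_sq)

/-! ### functions of one variable -/

section one

variable {X : Type} [NormedAddCommGroup X] [InnerProductSpace ℝ X] {g g1 : ℝ → X} {J : ℝ → ℝ}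

theorem ftc_sq (hg : ∀ s, HasDerivAt g (g1 s) s) (hg1 : Continuous g1) (a b : ℝ) :
    ∫ s in a..b, 2 * ⟪g s, g1 s⟫_ℝ = ‖g b‖ ^ 2 - ‖g a‖ ^ 2 := by
  have hgc : Continuous g := continuous_iff_continuousAt.2 fun s => (hg s).continuousAt
  refine intervalIntegral.integral_eq_sub_of_hasDerivAt (fun s _ => (hg s).norm_sq) ?_
  exact (continuous_const.mul (hgc.inner hg1)).intervalIntegrable _ _

theorem ftc_bd (hg : ∀ s, HasDerivAt g (g1 s) s) (hg1 : Continuous g1) (hJ : Continuous J)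
    (hb : ∀ s, ‖g1 s‖ ≤ J s) {a b : ℝ} (hab : a ≤ b) :
    |‖g b‖ ^ 2 - ‖g a‖ ^ 2| ≤ 2 * ∫ s in a..b, ‖g s‖ * J s := by
  have hgc : Continuous g := continuous_iff_continuousAt.2 fun s => (hg s).continuousAt
  rw [← ftc_sq hg hg1, ← intervalIntegral.integral_const_mul]
  have h1 := intervalIntegral.norm_integral_le_integral_norm (μ := volume)
    (f := fun s => 2 * ⟪g s, g1 s⟫_ℝ) hab
  rw [Real.norm_eq_abs] at h1
  refine h1.trans ?_
  refine intervalIntegral.integral_mono_on hab ?_ ?_ fun s _ => ?_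
  · exact (continuous_const.mul (hgc.inner hg1)).norm.intervalIntegrable _ _
  · exact (continuous_const.mul (hgc.norm.mul hJ)).intervalIntegrable _ _
  · rw [Real.norm_eq_abs, abs_mul, abs_two]
    have h2 : |⟪g s, g1 s⟫_ℝ| ≤ ‖g s‖ * ‖g1 s‖ := abs_real_inner_le_norm _ _
    have h3 : ‖g s‖ * ‖g1 s‖ ≤ ‖g s‖ * J s := mul_le_mul_of_nonneg_left (hb s) (norm_nonneg _)
    linarith

theorem sq_bd1 (hg : ∀ s, HasDerivAt g (g1 s) s) (hg1 : Continuous g1) (hJ : Continuous J)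
    (hb : ∀ s, ‖g1 s‖ ≤ J s) {a b x : ℝ} (hax : a ≤ x) (hxb : x ≤ b) (ha : g a = 0)
    (hgb : g b = 0) : ‖g x‖ ^ 2 ≤ ∫ s in a..b, ‖g s‖ * J s := by
  have hgc : Continuous g := continuous_iff_continuousAt.2 fun s => (hg s).continuousAt
  have h1 := ftc_bd hg hg1 hJ hb hax
  have h2 := ftc_bd hg hg1 hJ hb hxb
  rw [ha] at h1
  rw [hgb] at h2
  simp only [norm_zero, ne_eq, OfNat.ofNat_ne_zero, not_false_eq_true, zero_pow, sub_zero,
    zero_sub, abs_neg] at h1 h2
  rw [abs_of_nonneg (sq_nonneg _)] at h1 h2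
  have hi : ∀ a b, IntervalIntegrable (fun s => ‖g s‖ * J s) volume a b := fun a b =>
    (hgc.norm.mul hJ).intervalIntegrable _ _
  have h3 := intervalIntegral.integral_add_adjacent_intervals (hi a x) (hi x b)
  linarith

theorem sq_per (hg : ∀ s, HasDerivAt g (g1 s) s) (hg1 : Continuous g1) (hJ : Continuous J)
    (hb : ∀ s, ‖g1 s‖ ≤ J s) {n : ℕ} (hn : 0 < n)
    (hgp : ∀ s, ‖g (s + 2 * Real.pi / n)‖ = ‖g s‖) (hJp : ∀ s, J (s + 2 * Real.pi / n) = J s)
    (x : ℝ) : ‖g x‖ ^ 2 ≤ 1 / (2 * Real.pi) * (∫ s in (-Real.pi)..Real.pi, ‖g s‖ ^ 2)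
      + 2 / n * ∫ s in (-Real.pi)..Real.pi, ‖g s‖ * J s := by
  have hgc : Continuous g := continuous_iff_continuousAt.2 fun s => (hg s).continuousAt
  have hn' : (0 : ℝ) < n := by exact_mod_cast hn
  have hpi := Real.pi_pos
  set L : ℝ := 2 * Real.pi / n with hL
  have hL0 : 0 < L := by positivity
  have hi : ∀ a b, IntervalIntegrable (fun s => ‖g s‖ * J s) volume a b := fun a b =>
    (hgc.norm.mul hJ).intervalIntegrable _ _
  have hi2 : ∀ a b, IntervalIntegrable (fun s => ‖g s‖ ^ 2) volume a b := fun a b =>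
    (hgc.norm.pow 2).intervalIntegrable _ _
  have hJ0 : ∀ s, 0 ≤ ‖g s‖ * J s := fun s =>
    mul_nonneg (norm_nonneg _) ((norm_nonneg _).trans (hb s))
  -- periodicity
  have hper : ∀ h : ℝ → ℝ, (∀ a b, IntervalIntegrable h volume a b) → (∀ s, h (s + L) = h s) →
      ∫ s in (-Real.pi)..Real.pi, h s = n * ∫ s in x..(x + L), h s := by
    intro h hhi hhp
    have hp : Function.Periodic h L := hhp
    have h1 := hp.intervalIntegral_add_zsmul_eq (n : ℤ) (-Real.pi) hhi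
    have e1 : -Real.pi + (n : ℤ) • L = Real.pi := by
      rw [zsmul_eq_mul, hL]
      push_cast
      field_simp
      ring
    rw [e1, hp.intervalIntegral_add_eq (-Real.pi) x] at h1
    rw [h1, zsmul_eq_mul]
    push_cast
    rfl
  have hp1 := hper (fun s => ‖g s‖ ^ 2) hi2 (fun s => by simp only [hgp])
  have hp2 := hper (fun s => ‖g s‖ * J s) hi (fun s => by simp only [hgp, hJp])
  set I : ℝ := ∫ s in x..(x + L), ‖g s‖ * J s with hI
  -- the pointwise bound
  have h1 : ∀ θ ∈ Icc x (x + L), ‖g x‖ ^ 2 ≤ ‖g θ‖ ^ 2 + 2 * I := by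
    intro θ hθ
    have h2 := ftc_bd hg hg1 hJ hb hθ.1
    have h3 : ∫ s in x..θ, ‖g s‖ * J s ≤ I := by
      have h4 := intervalIntegral.integral_add_adjacent_intervals (hi x θ) (hi θ (x + L))
      have h5 : 0 ≤ ∫ s in θ..(x + L), ‖g s‖ * J s :=
        intervalIntegral.integral_nonneg hθ.2 fun s _ => hJ0 s
      rw [hI]
      linarith
    have h6 := (abs_le.1 h2).1
    linarith
  have h2 : ∫ _ in x..(x + L), ‖g x‖ ^ 2 ≤ ∫ θ in x..(x + L), (‖g θ‖ ^ 2 + 2 * I) :=
    intervalIntegral.integral_mono_on (by linarith) intervalIntegrable_const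
      ((hi2 _ _).add intervalIntegrable_const) h1
  rw [intervalIntegral.integral_const, intervalIntegral.integral_add (hi2 _ _)
    intervalIntegrable_const, intervalIntegral.integral_const, smul_eq_mul, smul_eq_mul,
    add_sub_cancel_left] at h2
  rw [hp1, hp2]
  have e1 : 1 / (2 * Real.pi) * (n * ∫ s in x..(x + L), ‖g s‖ ^ 2)
      = (∫ s in x..(x + L), ‖g s‖ ^ 2) / L := by
    rw [hL]; field_simp
  have e2 : 2 / (n : ℝ) * (n * I) = 2 * I := by field_simp
  rw [e1, e2]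
  have h3 : L * ‖g x‖ ^ 2 ≤ L * ((∫ s in x..(x + L), ‖g s‖ ^ 2) / L + 2 * I) := by
    have e3 : L * ((∫ s in x..(x + L), ‖g s‖ ^ 2) / L + 2 * I)
        = (∫ s in x..(x + L), ‖g s‖ ^ 2) + L * (2 * I) := by
      field_simp
    rw [e3]
    exact h2
  exact le_of_mul_le_mul_left h3 hL0

theorem ofReal_int {h : ℝ → ℝ} (hc : Continuous h) (h0 : ∀ s, 0 ≤ h s) {a b : ℝ} (hab : a ≤ b) :
    ENNReal.ofReal (∫ s in a..b, h s) = ∫⁻ s in Ioo a b, ENNReal.ofReal (h s) := by
  rw [intervalIntegral.integral_of_le hab, ← restrict_Ioo_eq_restrict_Ioc]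
  refine ofReal_integral_eq_lintegral_ofReal ?_ (Eventually.of_forall h0)
  exact (hc.integrableOn_Icc (a := a) (b := b)).mono_set Ioo_subset_Icc_self

end one

/-! ### points -/

theorem pt_eq (a b c : ℝ) : pt a b c = a • ev 0 + b • ev 1 + c • ev 2 := by
  ext i
  fin_cases i <;> simp [pt, ev]

theorem hasDerivAt_pt {a b c : ℝ → ℝ} {a1 b1 c1 s : ℝ} (ha : HasDerivAt a a1 s)
    (hb : HasDerivAt b b1 s) (hc : HasDerivAt c c1 s) :
    HasDerivAt (fun s => pt (a s) (b s) (c s)) (pt a1 b1 c1) s := by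
  simp only [pt_eq]
  exact ((ha.smul_const _).add (hb.smul_const _)).add (hc.smul_const _)

theorem norm_pt_sq (a b c : ℝ) : ‖pt a b c‖ ^ 2 = a ^ 2 + b ^ 2 + c ^ 2 := by
  rw [norm_sq_E3, Fin.sum_univ_three]
  rfl

theorem cyl_0 (θ r y : ℝ) : cyl θ r y 0 = r * Real.cos θ := rfl
theorem cyl_1 (θ r y : ℝ) : cyl θ r y 1 = r * Real.sin θ := rfl

theorem cyl_sq (θ r y : ℝ) : cyl θ r y 0 ^ 2 + cyl θ r y 1 ^ 2 = r ^ 2 := by
  rw [cyl_0, cyl_1]
  have := Real.sin_sq_add_cos_sq θ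
  linear_combination r ^ 2 * this

theorem rotF_cyl (L θ r y : ℝ) : rotF L (cyl θ r y) = cyl (θ + L) r y := by
  ext i
  fin_cases i
  · show rotF L (cyl θ r y) 0 = cyl (θ + L) r y 0
    rw [rotF_0, cyl_0, cyl_1, cyl_0, Real.cos_add]; ring
  · show rotF L (cyl θ r y) 1 = cyl (θ + L) r y 1
    rw [rotF_1, cyl_0, cyl_1, cyl_1, Real.sin_add]; ring
  · rfl

instance : SFinite pm := by unfold pm; infer_instance

/-! ### the inequality for test fields -/

section test

variable {Ω : Set E3} {φ : E3 → E3} {ρ R : ℝ} {n : ℕ}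

theorem cyl_der_r (hφ : ContDiff ℝ ∞ φ) (θ y s : ℝ) :
    HasDerivAt (fun s => φ (cyl θ s y))
      (fderiv ℝ φ (cyl θ s y) (pt (Real.cos θ) (Real.sin θ) 0)) s := by
  have h1 : HasDerivAt (fun s => cyl θ s y) (pt (Real.cos θ) (Real.sin θ) 0) s := by
    refine hasDerivAt_pt ?_ ?_ (hasDerivAt_const s y)
    · simpa using (hasDerivAt_id s).mul_const (Real.cos θ)
    · simpa using (hasDerivAt_id s).mul_const (Real.sin θ)
  exact ((hφ.differentiable (by simp)) _).hasFDerivAt.comp_hasDerivAt s h1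

theorem cyl_der_y (hφ : ContDiff ℝ ∞ φ) (θ r s : ℝ) :
    HasDerivAt (fun s => φ (cyl θ r s)) (fderiv ℝ φ (cyl θ r s) (pt 0 0 1)) s := by
  have h1 : HasDerivAt (fun s => cyl θ r s) (pt 0 0 1) s :=
    hasDerivAt_pt (hasDerivAt_const s _) (hasDerivAt_const s _) (hasDerivAt_id s)
  exact ((hφ.differentiable (by simp)) _).hasFDerivAt.comp_hasDerivAt s h1

theorem cyl_der_t (hφ : ContDiff ℝ ∞ φ) (r y s : ℝ) :
    HasDerivAt (fun s => φ (cyl s r y))
      (fderiv ℝ φ (cyl s r y) (pt (r * -Real.sin s) (r * Real.cos s) 0)) s := by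
  have h1 : HasDerivAt (fun s => cyl s r y) (pt (r * -Real.sin s) (r * Real.cos s) 0) s :=
    hasDerivAt_pt ((Real.hasDerivAt_cos s).const_mul r) ((Real.hasDerivAt_sin s).const_mul r)
      (hasDerivAt_const s _)
  exact ((hφ.differentiable (by simp)) _).hasFDerivAt.comp_hasDerivAt s h1

theorem cont_der (hφ : ContDiff ℝ ∞ φ) {c w : ℝ → E3} (hc : Continuous c) (hw : Continuous w) :
    Continuous fun s => fderiv ℝ φ (c s) (w s) :=
  ((hφ.continuous_fderiv (by simp)).comp hc).clm_apply hw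

theorem norm_der_le (x w : E3) {c : ℝ} (hw : ‖w‖ ≤ c) :
    ‖fderiv ℝ φ x w‖ ≤ c * ‖jac φ x‖ := by
  calc ‖fderiv ℝ φ x w‖ ≤ ‖fderiv ℝ φ x‖ * ‖w‖ := ContinuousLinearMap.le_opNorm _ _
    _ ≤ ‖jac φ x‖ * c := mul_le_mul (norm_fderiv_le_jac x) hw (norm_nonneg _) (norm_nonneg _)
    _ = c * ‖jac φ x‖ := mul_comm _ _

theorem cyl_cont_r (θ y : ℝ) : Continuous fun s => cyl θ s y :=
  continuous_cyl.comp (by fun_prop : Continuous fun s : ℝ => (θ, (s, y)))

theorem cyl_cont_y (θ r : ℝ) : Continuous fun s => cyl θ r s :=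
  continuous_cyl.comp (by fun_prop : Continuous fun s : ℝ => (θ, (r, s)))

theorem cyl_cont_t (r y : ℝ) : Continuous fun s => cyl s r y :=
  continuous_cyl.comp (by fun_prop : Continuous fun s : ℝ => (s, (r, y)))

/-- the bound in the radial direction -/
theorem bd_r (h : IsTest Ω φ) (hρ : 0 < ρ) (hsub : ∀ x ∈ Ω, ρ ^ 2 ≤ x 0 ^ 2 + x 1 ^ 2 ∧
    x 0 ^ 2 + x 1 ^ 2 ≤ R ^ 2) (θ y : ℝ) {r : ℝ} (hr : 0 < r) :
    ‖φ (cyl θ r y)‖ₑ ^ 2
      ≤ ∫⁻ s in Ioi (0 : ℝ), ‖φ (cyl θ s y)‖ₑ * ‖jac φ (cyl θ s y)‖ₑ := by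
  have hoff : ∀ s, ¬ (ρ ^ 2 ≤ s ^ 2 ∧ s ^ 2 ≤ R ^ 2) → φ (cyl θ s y) = 0 := by
    intro s hs
    refine image_eq_zero_of_notMem_tsupport fun hx => hs ?_
    have := hsub _ (h.supp hx)
    rwa [cyl_sq] at this
  set M : ℝ := max r |R| + 1 with hM
  have hM1 : r ≤ M := by rw [hM]; linarith [le_max_left r |R|]
  have hM2 : |R| < M := by rw [hM]; linarith [le_max_right r |R|]
  have hM0 : 0 ≤ M := hr.le.trans hM1
  have hJc : Continuous fun s => ‖jac φ (cyl θ s y)‖ :=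
    ((continuous_jac h.smooth).comp (cyl_cont_r θ y)).norm
  have h1 := sq_bd1 (g := fun s => φ (cyl θ s y)) (J := fun s => ‖jac φ (cyl θ s y)‖)
    (fun s => cyl_der_r h.smooth θ y s) (cont_der h.smooth (cyl_cont_r θ y) continuous_const)
    hJc (fun s => by
      have := norm_der_le (φ := φ) (cyl θ s y) (pt (Real.cos θ) (Real.sin θ) 0) (c := 1) (by
        have e := norm_pt_sq (Real.cos θ) (Real.sin θ) 0
        have e2 := Real.sin_sq_add_cos_sq θ
        have e3 : ‖pt (Real.cos θ) (Real.sin θ) 0‖ ^ 2 ≤ 1 ^ 2 := by rw [e]; nlinarith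
        exact (pow_le_pow_iff_left₀ (norm_nonneg _) zero_le_one (by norm_num)).mp e3)
      rwa [one_mul] at this) hr.le hM1 (hoff 0 (by
        rintro ⟨k1, -⟩
        nlinarith)) (hoff M (by
        rintro ⟨-, k2⟩
        have : |R| ^ 2 < M ^ 2 := pow_lt_pow_left₀ hM2 (abs_nonneg _) (by norm_num)
        rw [sq_abs] at this
        linarith))
  have h2 := ENNReal.ofReal_le_ofReal h1
  have hφc : Continuous fun s => ‖φ (cyl θ s y)‖ := (h.smooth.continuous.comp (cyl_cont_r θ y)).norm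
  have hint := ofReal_int (h := fun s => ‖φ (cyl θ s y)‖ * ‖jac φ (cyl θ s y)‖) (hφc.mul hJc)
    (fun s => by positivity) hM0
  rw [hint, ENNReal.ofReal_pow (norm_nonneg _), ofReal_norm] at h2
  refine h2.trans ?_
  refine (lintegral_mono_set (μ := volume) (s := Ioo 0 M) (t := Ioi 0)
    (fun s hs => hs.1)).trans (le_of_eq ?_)
  refine lintegral_congr fun s => ?_
  rw [ENNReal.ofReal_mul (norm_nonneg _), ofReal_norm, ofReal_norm]

/-- the bound in the vertical direction -/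
theorem bd_y (h : IsTest Ω φ) (θ r y : ℝ) :
    ‖φ (cyl θ r y)‖ₑ ^ 2 ≤ ∫⁻ s, ‖φ (cyl θ r s)‖ₑ * ‖jac φ (cyl θ r s)‖ₑ := by
  obtain ⟨M0, hM0⟩ := h.compact.isCompact.isBounded.exists_norm_le
  have hoff : ∀ s, M0 < |s| → φ (cyl θ r s) = 0 := by
    intro s hs
    refine image_eq_zero_of_notMem_tsupport fun hx => ?_
    have h1 := hM0 _ hx
    have h2 : |s| ^ 2 ≤ ‖cyl θ r s‖ ^ 2 := by
      unfold cyl
      rw [norm_pt_sq, sq_abs]
      nlinarith [sq_nonneg (r * Real.cos θ), sq_nonneg (r * Real.sin θ)]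
    have h3 := (pow_le_pow_iff_left₀ (abs_nonneg _) (norm_nonneg _) (by norm_num)).mp h2
    linarith
  set M : ℝ := max |y| M0 + 1 with hM
  have hM1 : |y| ≤ M := by rw [hM]; linarith [le_max_left |y| M0]
  have hM2 : M0 < M := by rw [hM]; linarith [le_max_right |y| M0]
  have hMp : 0 < M := by rw [hM]; linarith [le_max_left |y| M0, abs_nonneg y]
  have hJc : Continuous fun s => ‖jac φ (cyl θ r s)‖ :=
    ((continuous_jac h.smooth).comp (cyl_cont_y θ r)).norm
  have h1 := sq_bd1 (g := fun s => φ (cyl θ r s)) (J := fun s => ‖jac φ (cyl θ r s)‖)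
    (fun s => cyl_der_y h.smooth θ r s) (cont_der h.smooth (cyl_cont_y θ r) continuous_const)
    hJc (fun s => by
      have := norm_der_le (φ := φ) (cyl θ r s) (pt 0 0 1) (c := 1) (by
        have e := norm_pt_sq 0 0 1
        have e3 : ‖pt 0 0 1‖ ^ 2 ≤ 1 ^ 2 := by rw [e]; norm_num
        exact (pow_le_pow_iff_left₀ (norm_nonneg _) zero_le_one (by norm_num)).mp e3)
      rwa [one_mul] at this) (a := -M) (b := M) (x := y) (abs_le.1 hM1).1 (abs_le.1 hM1).2
      (hoff _ (by rw [abs_neg, abs_of_pos hMp]; exact hM2))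
      (hoff _ (by rw [abs_of_pos hMp]; exact hM2))
  have h2 := ENNReal.ofReal_le_ofReal h1
  have hφc : Continuous fun s => ‖φ (cyl θ r s)‖ := (h.smooth.continuous.comp (cyl_cont_y θ r)).norm
  have hint := ofReal_int (h := fun s => ‖φ (cyl θ r s)‖ * ‖jac φ (cyl θ r s)‖) (hφc.mul hJc)
    (fun s => by positivity) (a := -M) (b := M) (by linarith)
  rw [hint, ENNReal.ofReal_pow (norm_nonneg _), ofReal_norm] at h2
  refine h2.trans ?_
  refine (setLIntegral_le_lintegral (Ioo (-M) M) _).trans (le_of_eq ?_)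
  refine lintegral_congr fun s => ?_
  rw [ENNReal.ofReal_mul (norm_nonneg _), ofReal_norm, ofReal_norm]

/-- the bound in the angular direction -/
theorem bd_t (h : IsTest Ω φ) (hR : 0 < R) (hsub : ∀ x ∈ Ω, ρ ^ 2 ≤ x 0 ^ 2 + x 1 ^ 2 ∧
    x 0 ^ 2 + x 1 ^ 2 ≤ R ^ 2) (hn : 0 < n) (hsym : rotT (2 * Real.pi / n) φ = φ) (θ r y : ℝ) :
    ‖φ (cyl θ r y)‖ₑ ^ 2
      ≤ ENNReal.ofReal (1 / (2 * Real.pi))
          * (∫⁻ s in Ioo (-Real.pi) Real.pi, ‖φ (cyl s r y)‖ₑ ^ 2)
        + ENNReal.ofReal (2 * R / n)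
          * ∫⁻ s in Ioo (-Real.pi) Real.pi, ‖φ (cyl s r y)‖ₑ * ‖jac φ (cyl s r y)‖ₑ := by
  have hn' : (0 : ℝ) < n := by exact_mod_cast hn
  have hpi := Real.pi_pos
  have hs1 : ∀ x, ‖φ (rotF (2 * Real.pi / n) x)‖ = ‖φ x‖ := by
    intro x
    conv_lhs => rw [← hsym]
    unfold rotT
    rw [norm_rotF, rotF_neg']
  have hs2 : ∀ x, ‖jac φ (rotF (2 * Real.pi / n) x)‖ = ‖jac φ x‖ := by
    intro x
    have e := jac_rotT (2 * Real.pi / n) h.smooth (rotF (2 * Real.pi / n) x)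
    rw [hsym, rotF_neg'] at e
    rw [e, norm_cnjF]
  have hJc : Continuous fun s => R * ‖jac φ (cyl s r y)‖ :=
    continuous_const.mul ((continuous_jac h.smooth).comp (cyl_cont_t r y)).norm
  have h1 := sq_per (g := fun s => φ (cyl s r y)) (J := fun s => R * ‖jac φ (cyl s r y)‖)
    (fun s => cyl_der_t h.smooth r y s)
    (cont_der h.smooth (cyl_cont_t r y) (by
      simp only [pt_eq]
      fun_prop)) hJc (fun s => by
      by_cases hx : cyl s r y ∈ tsupport φ
      · have k1 := (hsub _ (h.supp hx)).2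
        rw [cyl_sq] at k1
        refine norm_der_le (φ := φ) (cyl s r y) _ ?_
        have e3 : ‖pt (r * -Real.sin s) (r * Real.cos s) 0‖ ^ 2 ≤ R ^ 2 := by
          rw [norm_pt_sq]
          have e2 := Real.sin_sq_add_cos_sq s
          have : (r * -Real.sin s) ^ 2 + (r * Real.cos s) ^ 2 + 0 ^ 2 = r ^ 2 := by
            linear_combination r ^ 2 * e2
          rw [this]
          exact k1
        exact (pow_le_pow_iff_left₀ (norm_nonneg _) hR.le (by norm_num)).mp e3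
      · have : fderiv ℝ φ (cyl s r y) = 0 :=
          image_eq_zero_of_notMem_tsupport fun hc => hx (tsupport_fderiv_subset ℝ hc)
        rw [this]
        simp only [_root_.zero_apply, norm_zero]
        positivity) hn
      (fun s => by
        show ‖φ (cyl (s + 2 * Real.pi / n) r y)‖ = _
        rw [← rotF_cyl, hs1])
      (fun s => by
        show R * ‖jac φ (cyl (s + 2 * Real.pi / n) r y)‖ = _
        rw [← rotF_cyl, hs2]) θ
  have h2 := ENNReal.ofReal_le_ofReal h1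
  have hφc : Continuous fun s => ‖φ (cyl s r y)‖ := (h.smooth.continuous.comp (cyl_cont_t r y)).norm
  have hI1 : 0 ≤ ∫ s in (-Real.pi)..Real.pi, ‖φ (cyl s r y)‖ ^ 2 :=
    intervalIntegral.integral_nonneg (by linarith) fun s _ => by positivity
  have hI2 : 0 ≤ ∫ s in (-Real.pi)..Real.pi, ‖φ (cyl s r y)‖ * (R * ‖jac φ (cyl s r y)‖) :=
    intervalIntegral.integral_nonneg (by linarith) fun s _ => by positivity
  have hint1 := ofReal_int (h := fun s => ‖φ (cyl s r y)‖ ^ 2) (hφc.pow 2)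
    (fun s => by positivity) (a := -Real.pi) (b := Real.pi) (by linarith)
  have hint2 := ofReal_int (h := fun s => ‖φ (cyl s r y)‖ * (R * ‖jac φ (cyl s r y)‖))
    (hφc.mul hJc) (fun s => by positivity) (a := -Real.pi) (b := Real.pi) (by linarith)
  rw [ENNReal.ofReal_add (by positivity) (by positivity), ENNReal.ofReal_mul (by positivity),
    ENNReal.ofReal_mul (by positivity), hint1, hint2,
    ENNReal.ofReal_pow (norm_nonneg _), ofReal_norm] at h2
  refine h2.trans (le_of_eq ?_)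
  congr 1
  · congr 1
    refine lintegral_congr fun s => ?_
    rw [ENNReal.ofReal_pow (norm_nonneg _), ofReal_norm]
  · have e1 : ∀ s, ENNReal.ofReal (‖φ (cyl s r y)‖ * (R * ‖jac φ (cyl s r y)‖))
        = ENNReal.ofReal R * (‖φ (cyl s r y)‖ₑ * ‖jac φ (cyl s r y)‖ₑ) := by
      intro s
      rw [ENNReal.ofReal_mul (norm_nonneg _), ENNReal.ofReal_mul hR.le, ofReal_norm, ofReal_norm]
      ring
    simp only [e1]
    rw [lintegral_const_mul' _ _ ENNReal.ofReal_ne_top, ← mul_assoc,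
      ← ENNReal.ofReal_mul (by positivity)]
    congr 2
    ring

end test

end Pool.Agent.Y303.NF
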