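import Pool.Agent.Y303.NF.Ineq

/-!
The inequality of Ladyzhenskaya type for fields which are invariant under a rotation by `2π/n`:
conclusion.
-/

set_option autoImplicit false
set_option linter.unusedSectionVars false

open MeasureTheory Set Filter Topology
open scoped InnerProductSpace ENNReal ContDiff NNReal

namespace Pool.Agent.Y303.NF

open H772R2.NS
open Pool.Agent.W52.TQ (cs_sq)

variable {Ω : Set E3} {φ : E3 → E3} {ρ R : ℝ} {n : ℕ}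

/-- claim A -/
theorem claimA (h : IsTest Ω φ) (hR : 0 < R) (hsub : ∀ x ∈ Ω, ρ ^ 2 ≤ x 0 ^ 2 + x 1 ^ 2 ∧
    x 0 ^ 2 + x 1 ^ 2 ≤ R ^ 2) (hn : 0 < n) (hsym : rotT (2 * Real.pi / n) φ = φ) (θ : ℝ) :
    ∫⁻ p, ‖φ (cyl θ p.1 p.2)‖ₑ ^ 2 ∂pm
      ≤ ENNReal.ofReal (1 / (2 * Real.pi)) * (∫⁻ x, ‖φ x‖ₑ ^ 2)
        + ENNReal.ofReal (2 * R / n) * ∫⁻ x, ‖φ x‖ₑ * ‖jac φ x‖ₑ := by
  have hφm : Measurable fun x => ‖φ x‖ₑ := h.smooth.continuous.enorm.measurable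
  have hjm : Measurable fun x => ‖jac φ x‖ₑ := (continuous_jac h.smooth).enorm.measurable
  have hcm : Measurable fun q : (ℝ × ℝ) × ℝ => cyl q.2 q.1.1 q.1.2 :=
    continuous_cyl.measurable.comp
      (by fun_prop : Measurable fun q : (ℝ × ℝ) × ℝ => (q.2, (q.1.1, q.1.2)))
  have m1 : Measurable fun q : (ℝ × ℝ) × ℝ => ‖φ (cyl q.2 q.1.1 q.1.2)‖ₑ ^ 2 :=
    (hφm.comp hcm).pow_const 2
  have m2 : Measurable fun q : (ℝ × ℝ) × ℝ =>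
      ‖φ (cyl q.2 q.1.1 q.1.2)‖ₑ * ‖jac φ (cyl q.2 q.1.1 q.1.2)‖ₑ :=
    (hφm.comp hcm).mul (hjm.comp hcm)
  have e1 := cyl_lint (f := fun x => ‖φ x‖ₑ ^ 2) (hφm.pow_const 2)
  have e2 := cyl_lint (f := fun x => ‖φ x‖ₑ * ‖jac φ x‖ₑ) (hφm.mul hjm)
  have s1 : ∫⁻ s in Ioo (-Real.pi) Real.pi, ∫⁻ p, ‖φ (cyl s p.1 p.2)‖ₑ ^ 2 ∂pm
      = ∫⁻ p, (∫⁻ s in Ioo (-Real.pi) Real.pi, ‖φ (cyl s p.1 p.2)‖ₑ ^ 2) ∂pm :=
    (lintegral_lintegral_swap (μ := pm) (ν := volume.restrict (Ioo (-Real.pi) Real.pi))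
      (f := fun (p : ℝ × ℝ) (s : ℝ) => ‖φ (cyl s p.1 p.2)‖ₑ ^ 2) m1.aemeasurable).symm
  have s2 : ∫⁻ s in Ioo (-Real.pi) Real.pi, ∫⁻ p, ‖φ (cyl s p.1 p.2)‖ₑ * ‖jac φ (cyl s p.1 p.2)‖ₑ ∂pm
      = ∫⁻ p, (∫⁻ s in Ioo (-Real.pi) Real.pi,
          ‖φ (cyl s p.1 p.2)‖ₑ * ‖jac φ (cyl s p.1 p.2)‖ₑ) ∂pm :=
    (lintegral_lintegral_swap (μ := pm) (ν := volume.restrict (Ioo (-Real.pi) Real.pi))
      (f := fun (p : ℝ × ℝ) (s : ℝ) => ‖φ (cyl s p.1 p.2)‖ₑ * ‖jac φ (cyl s p.1 p.2)‖ₑ)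
      m2.aemeasurable).symm
  rw [e1, e2, s1, s2, ← lintegral_const_mul' _ _ ENNReal.ofReal_ne_top,
    ← lintegral_const_mul' _ _ ENNReal.ofReal_ne_top, ← lintegral_add_left]
  · exact lintegral_mono fun p => bd_t h hR hsub hn hsym θ p.1 p.2
  · exact m1.lintegral_prod_right'.const_mul _

/-- claim B -/
theorem claimB (h : IsTest Ω φ) (hρ : 0 < ρ) (hsub : ∀ x ∈ Ω, ρ ^ 2 ≤ x 0 ^ 2 + x 1 ^ 2 ∧
    x 0 ^ 2 + x 1 ^ 2 ≤ R ^ 2) (θ : ℝ) :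
    ENNReal.ofReal ρ * ∫⁻ p, ‖φ (cyl θ p.1 p.2)‖ₑ ^ 4 ∂pm
      ≤ (∫⁻ p, ‖φ (cyl θ p.1 p.2)‖ₑ * ‖jac φ (cyl θ p.1 p.2)‖ₑ ∂pm) ^ 2 := by
  have hφm : Measurable fun x => ‖φ x‖ₑ := h.smooth.continuous.enorm.measurable
  have hjm : Measurable fun x => ‖jac φ x‖ₑ := (continuous_jac h.smooth).enorm.measurable
  have hcm : Measurable fun q : ℝ × ℝ => cyl θ q.1 q.2 :=
    continuous_cyl.measurable.comp (by fun_prop : Measurable fun q : ℝ × ℝ => (θ, q))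
  have hsw : Measurable fun q : ℝ × ℝ => (q.2, q.1) := by fun_prop
  set PJ : ℝ → ℝ → ℝ≥0∞ := fun r y => ‖φ (cyl θ r y)‖ₑ * ‖jac φ (cyl θ r y)‖ₑ with hPJ
  have mPJ : Measurable fun q : ℝ × ℝ => PJ q.1 q.2 := (hφm.comp hcm).mul (hjm.comp hcm)
  have mo : Measurable fun q : ℝ × ℝ => ENNReal.ofReal q.1 :=
    ENNReal.measurable_ofReal.comp measurable_fst
  set α : ℝ → ℝ≥0∞ := fun y => ∫⁻ s in Ioi (0 : ℝ), PJ s y with hα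
  set β : ℝ → ℝ≥0∞ := fun r => ∫⁻ y, PJ r y with hβ
  have mα : Measurable α := (mPJ.comp hsw).lintegral_prod_right'
  have mβ : Measurable β := mPJ.lintegral_prod_right'
  set I : ℝ≥0∞ := ∫⁻ p, PJ p.1 p.2 ∂pm with hI
  have hI1 : I = ∫⁻ r in Ioi (0 : ℝ), ∫⁻ y, ENNReal.ofReal r * PJ r y := lint_pm mPJ
  have hI2 : I = ∫⁻ r in Ioi (0 : ℝ), ENNReal.ofReal r * β r := by
    rw [hI1]
    exact lintegral_congr fun r => lintegral_const_mul' _ _ ENNReal.ofReal_ne_top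
  -- the integral of `α`
  have hA : ENNReal.ofReal ρ * ∫⁻ y, α y ≤ I := by
    have e1 : I = ∫⁻ y, ∫⁻ r in Ioi (0 : ℝ), ENNReal.ofReal r * PJ r y := by
      rw [hI1]
      exact lintegral_lintegral_swap (mo.mul mPJ).aemeasurable
    rw [e1, ← lintegral_const_mul _ mα]
    refine lintegral_mono fun y => ?_
    show ENNReal.ofReal ρ * (∫⁻ s in Ioi (0 : ℝ), PJ s y) ≤ _
    rw [← lintegral_const_mul' _ _ ENNReal.ofReal_ne_top]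
    refine setLIntegral_mono' measurableSet_Ioi fun s hs => ?_
    by_cases hx : cyl θ s y ∈ tsupport φ
    · have k1 := (hsub _ (h.supp hx)).1
      rw [cyl_sq] at k1
      have k2 : ρ ≤ s := (pow_le_pow_iff_left₀ hρ.le (le_of_lt hs) (by norm_num)).mp k1
      gcongr
    · have : φ (cyl θ s y) = 0 := image_eq_zero_of_notMem_tsupport hx
      simp [hPJ, this]
  -- the fourth powers
  have hB : ∫⁻ p, ‖φ (cyl θ p.1 p.2)‖ₑ ^ 4 ∂pm ≤ I * ∫⁻ y, α y := by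
    rw [lint_pm (f := fun p => ‖φ (cyl θ p.1 p.2)‖ₑ ^ 4) ((hφm.comp hcm).pow_const 4), hI2]
    have mr : Measurable fun r : ℝ => ENNReal.ofReal r * β r := ENNReal.measurable_ofReal.mul mβ
    rw [← lintegral_mul_const _ mr]
    refine setLIntegral_mono' measurableSet_Ioi fun r hr => ?_
    rw [← lintegral_const_mul _ mα]
    refine lintegral_mono fun y => ?_
    have k1 : ‖φ (cyl θ r y)‖ₑ ^ 2 ≤ α y := bd_r h hρ hsub θ y hr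
    have k2 : ‖φ (cyl θ r y)‖ₑ ^ 2 ≤ β r := bd_y h θ r y
    calc ENNReal.ofReal r * ‖φ (cyl θ r y)‖ₑ ^ 4
        = ENNReal.ofReal r * (‖φ (cyl θ r y)‖ₑ ^ 2 * ‖φ (cyl θ r y)‖ₑ ^ 2) := by ring
      _ ≤ ENNReal.ofReal r * (β r * α y) := by gcongr
      _ = ENNReal.ofReal r * β r * α y := by ring
  calc ENNReal.ofReal ρ * ∫⁻ p, ‖φ (cyl θ p.1 p.2)‖ₑ ^ 4 ∂pm
      ≤ ENNReal.ofReal ρ * (I * ∫⁻ y, α y) := by gcongr
    _ = I * (ENNReal.ofReal ρ * ∫⁻ y, α y) := by ring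
    _ ≤ I * I := by gcongr
    _ = I ^ 2 := by ring

/-- the inequality for test fields -/
theorem ineq_test (h : IsTest Ω φ) (hρ : 0 < ρ) (hR : 0 < R)
    (hsub : ∀ x ∈ Ω, ρ ^ 2 ≤ x 0 ^ 2 + x 1 ^ 2 ∧ x 0 ^ 2 + x 1 ^ 2 ≤ R ^ 2) (hn : 0 < n)
    (hsym : rotT (2 * Real.pi / n) φ = φ) :
    ENNReal.ofReal ρ * ∫⁻ x, ‖φ x‖ₑ ^ 4
      ≤ (ENNReal.ofReal (1 / (2 * Real.pi)) * (∫⁻ x, ‖φ x‖ₑ ^ 2)
        + ENNReal.ofReal (2 * R / n) * ∫⁻ x, ‖φ x‖ₑ * ‖jac φ x‖ₑ) * ∫⁻ x, ‖jac φ x‖ₑ ^ 2 := by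
  have hφm : Measurable fun x => ‖φ x‖ₑ := h.smooth.continuous.enorm.measurable
  have hjm : Measurable fun x => ‖jac φ x‖ₑ := (continuous_jac h.smooth).enorm.measurable
  have hcm : ∀ θ, Measurable fun q : ℝ × ℝ => cyl θ q.1 q.2 := fun θ =>
    continuous_cyl.measurable.comp (by fun_prop : Measurable fun q : ℝ × ℝ => (θ, q))
  set S : ℝ≥0∞ := ENNReal.ofReal (1 / (2 * Real.pi)) * (∫⁻ x, ‖φ x‖ₑ ^ 2)
        + ENNReal.ofReal (2 * R / n) * ∫⁻ x, ‖φ x‖ₑ * ‖jac φ x‖ₑ with hS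
  rw [cyl_lint (hφm.pow_const 4), cyl_lint (hjm.pow_const 2),
    ← lintegral_const_mul' _ _ ENNReal.ofReal_ne_top]
  have hstep : ∀ θ, ENNReal.ofReal ρ * ∫⁻ p, ‖φ (cyl θ p.1 p.2)‖ₑ ^ 4 ∂pm
      ≤ S * ∫⁻ p, ‖jac φ (cyl θ p.1 p.2)‖ₑ ^ 2 ∂pm := by
    intro θ
    refine (claimB h hρ hsub θ).trans ?_
    refine (cs_sq (hφm.comp (hcm θ)).aemeasurable (hjm.comp (hcm θ)).aemeasurable).trans ?_
    exact mul_le_mul' (claimA h hR hsub hn hsym θ) le_rfl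
  refine (lintegral_mono hstep).trans ?_
  have mj : Measurable fun θ : ℝ => ∫⁻ p, ‖jac φ (cyl θ p.1 p.2)‖ₑ ^ 2 ∂pm := by
    have m1 : Measurable fun q : ℝ × (ℝ × ℝ) => ‖jac φ (cyl q.1 q.2.1 q.2.2)‖ₑ ^ 2 :=
      (hjm.comp continuous_cyl.measurable).pow_const 2
    exact m1.lintegral_prod_right'
  rw [lintegral_const_mul _ mj]

end Pool.Agent.Y303.NF
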