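import Pool.Agent.Y303.NF.Rot

/-!
Integration in cylindrical coordinates.
-/

set_option autoImplicit false
set_option linter.unusedSectionVars false

open MeasureTheory Set Filter Topology
open scoped InnerProductSpace ENNReal ContDiff NNReal

namespace Pool.Agent.Y303.NF

open H772R2.NS

/-- the point with Cartesian coordinates `a, b, y` -/
noncomputable def pt (a b y : ℝ) : E3 := WithLp.toLp 2 ![a, b, y]

/-- the point with cylindrical coordinates `r, θ, y` -/
noncomputable def cyl (θ r y : ℝ) : E3 := pt (r * Real.cos θ) (r * Real.sin θ) y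

theorem mp_pt : MeasurePreserving (fun q : ℝ × (ℝ × ℝ) => pt q.2.1 q.2.2 q.1)
    volume (volume : Measure E3) := by
  have h1 := (MeasurePreserving.id (volume : Measure ℝ)).prod
    ((volume_preserving_finTwoArrow ℝ).symm)
  have h2 := (volume_preserving_piFinSuccAbove (fun _ : Fin 3 => ℝ) 2).symm
  have h3 := (EuclideanSpace.volume_preserving_symm_measurableEquiv_toLp (Fin 3)).symm
  have h4 := h3.comp (h2.comp h1)
  have e : (fun q : ℝ × (ℝ × ℝ) => pt q.2.1 q.2.2 q.1)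
      = (MeasurableEquiv.toLp 2 (Fin 3 → ℝ)).symm.symm ∘
        (MeasurableEquiv.piFinSuccAbove (fun _ : Fin 3 => ℝ) 2).symm ∘
          Prod.map id MeasurableEquiv.finTwoArrow.symm := by
    funext q
    ext i
    fin_cases i <;> rfl
  rw [e]
  exact h4

theorem measurable_pt : Measurable (fun q : ℝ × (ℝ × ℝ) => pt q.2.1 q.2.2 q.1) :=
  mp_pt.measurable

/-- the measure `r dr dy` on the half plane -/
noncomputable def pm : Measure (ℝ × ℝ) :=
  (((volume : Measure ℝ).restrict (Ioi 0)).prod volume).withDensity fun p => ENNReal.ofReal p.1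

theorem lint_pm {f : ℝ × ℝ → ℝ≥0∞} (hf : Measurable f) :
    ∫⁻ p, f p ∂pm = ∫⁻ r in Ioi (0 : ℝ), ∫⁻ y, ENNReal.ofReal r * f (r, y) := by
  unfold pm
  have hd : Measurable fun p : ℝ × ℝ => ENNReal.ofReal p.1 :=
    ENNReal.measurable_ofReal.comp measurable_fst
  rw [lintegral_withDensity_eq_lintegral_mul _ hd hf, lintegral_prod _ (hd.mul hf).aemeasurable]
  rfl

theorem continuous_cyl : Continuous fun q : ℝ × (ℝ × ℝ) => cyl q.1 q.2.1 q.2.2 := by
  unfold cyl pt
  refine (PiLp.continuous_toLp 2 _).comp ?_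
  refine continuous_pi fun i => ?_
  fin_cases i
  · show Continuous fun q : ℝ × (ℝ × ℝ) => q.2.1 * Real.cos q.1
    fun_prop
  · show Continuous fun q : ℝ × (ℝ × ℝ) => q.2.1 * Real.sin q.1
    fun_prop
  · show Continuous fun q : ℝ × (ℝ × ℝ) => q.2.2
    fun_prop

/-- **Integration in cylindrical coordinates.** -/
theorem cyl_lint {f : E3 → ℝ≥0∞} (hf : Measurable f) :
    ∫⁻ x, f x = ∫⁻ θ in Ioo (-Real.pi) Real.pi, ∫⁻ p, f (cyl θ p.1 p.2) ∂pm := by
  have hG : Measurable fun q : ℝ × (ℝ × ℝ) => ENNReal.ofReal q.2.1 * f (cyl q.1 q.2.1 q.2.2) :=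
    (ENNReal.measurable_ofReal.comp (measurable_fst.comp measurable_snd)).mul
      (hf.comp continuous_cyl.measurable)
  have h1 : ∫⁻ x, f x = ∫⁻ q : ℝ × (ℝ × ℝ), f (pt q.2.1 q.2.2 q.1) :=
    (mp_pt.lintegral_comp hf).symm
  rw [h1]
  have h2 : ∫⁻ q : ℝ × (ℝ × ℝ), f (pt q.2.1 q.2.2 q.1)
      = ∫⁻ y : ℝ, ∫⁻ w : ℝ × ℝ, f (pt w.1 w.2 y) :=
    lintegral_prod _ (hf.comp measurable_pt).aemeasurable
  rw [h2]
  have h3 : ∀ y : ℝ, ∫⁻ w : ℝ × ℝ, f (pt w.1 w.2 y)
      = ∫⁻ r in Ioi (0 : ℝ), ∫⁻ θ in Ioo (-Real.pi) Real.pi, ENNReal.ofReal r * f (cyl θ r y) := by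
    intro y
    rw [← lintegral_comp_polarCoord_symm]
    have e1 : (volume.restrict polarCoord.target : Measure (ℝ × ℝ))
        = (volume.restrict (Ioi (0 : ℝ))).prod (volume.restrict (Ioo (-Real.pi) Real.pi)) := by
      rw [polarCoord_target, Measure.prod_restrict]
      rfl
    rw [e1, lintegral_prod]
    · refine lintegral_congr fun r => lintegral_congr fun θ => ?_
      rw [polarCoord_symm_apply, smul_eq_mul]
      rfl
    · have hc : Measurable fun p : ℝ × ℝ => ENNReal.ofReal p.1 * f (cyl p.2 p.1 y) :=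
        hG.comp (by fun_prop : Measurable fun p : ℝ × ℝ => (p.2, (p.1, y)))
      refine hc.aemeasurable.congr (Eventually.of_forall fun p => ?_)
      simp only [polarCoord_symm_apply, smul_eq_mul]
      rfl
  simp only [h3]
  -- swap `r` and `θ`
  have h4 : ∀ y : ℝ, ∫⁻ r in Ioi (0 : ℝ), ∫⁻ θ in Ioo (-Real.pi) Real.pi,
      ENNReal.ofReal r * f (cyl θ r y)
      = ∫⁻ θ in Ioo (-Real.pi) Real.pi, ∫⁻ r in Ioi (0 : ℝ), ENNReal.ofReal r * f (cyl θ r y) := by
    intro y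
    refine lintegral_lintegral_swap ?_
    exact (hG.comp (by fun_prop : Measurable fun p : ℝ × ℝ => (p.2, (p.1, y)))).aemeasurable
  simp only [h4]
  -- swap `y` and `θ`
  have hm1 : Measurable fun p : ℝ × ℝ => ∫⁻ r in Ioi (0 : ℝ), ENNReal.ofReal r * f (cyl p.2 r p.1) := by
    have hc : Measurable fun q : (ℝ × ℝ) × ℝ => ENNReal.ofReal q.2 * f (cyl q.1.2 q.2 q.1.1) :=
      hG.comp (by fun_prop : Measurable fun q : (ℝ × ℝ) × ℝ => (q.1.2, (q.2, q.1.1)))
    exact hc.lintegral_prod_right'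
  have h5 : ∫⁻ y : ℝ, ∫⁻ θ in Ioo (-Real.pi) Real.pi, ∫⁻ r in Ioi (0 : ℝ),
      ENNReal.ofReal r * f (cyl θ r y)
      = ∫⁻ θ in Ioo (-Real.pi) Real.pi, ∫⁻ y : ℝ, ∫⁻ r in Ioi (0 : ℝ),
        ENNReal.ofReal r * f (cyl θ r y) :=
    lintegral_lintegral_swap hm1.aemeasurable
  rw [h5]
  refine lintegral_congr fun θ => ?_
  have hfθ : Measurable fun p : ℝ × ℝ => f (cyl θ p.1 p.2) :=
    (hf.comp continuous_cyl.measurable).comp (by fun_prop : Measurable fun p : ℝ × ℝ => (θ, p))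
  rw [lint_pm hfθ]
  refine lintegral_lintegral_swap ?_
  exact (hG.comp (by fun_prop : Measurable fun p : ℝ × ℝ => (θ, (p.2, p.1)))).aemeasurable

end Pool.Agent.Y303.NF
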