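import Pool.Agent.Y303.NF.Sym
import Pool.Agent.H772R2.NS.Space3

/-!
Rotations about the third axis: action on vector and matrix fields.
-/

set_option autoImplicit false
set_option linter.unusedSectionVars false

open MeasureTheory Set Filter Topology
open scoped InnerProductSpace ENNReal ContDiff NNReal

namespace Pool.Agent.Y303.NF

open H772R2.NS

/-- rotation by the angle `α` about the third axis -/
noncomputable def rotF (α : ℝ) (x : E3) : E3 :=
  WithLp.toLp 2 ![Real.cos α * x 0 - Real.sin α * x 1, Real.sin α * x 0 + Real.cos α * x 1, x 2]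

theorem rotF_0 (α : ℝ) (x : E3) : rotF α x 0 = Real.cos α * x 0 - Real.sin α * x 1 := rfl
theorem rotF_1 (α : ℝ) (x : E3) : rotF α x 1 = Real.sin α * x 0 + Real.cos α * x 1 := rfl
theorem rotF_2 (α : ℝ) (x : E3) : rotF α x 2 = x 2 := rfl

theorem rotF_rotF (α β : ℝ) (x : E3) : rotF α (rotF β x) = rotF (α + β) x := by
  ext i
  fin_cases i
  · show rotF α (rotF β x) 0 = rotF (α + β) x 0
    rw [rotF_0, rotF_0, rotF_1, rotF_0, Real.cos_add, Real.sin_add]; ring
  · show rotF α (rotF β x) 1 = rotF (α + β) x 1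
    rw [rotF_1, rotF_0, rotF_1, rotF_1, Real.cos_add, Real.sin_add]; ring
  · show rotF α (rotF β x) 2 = rotF (α + β) x 2
    rw [rotF_2, rotF_2, rotF_2]

theorem rotF_zero (x : E3) : rotF 0 x = x := by
  ext i
  fin_cases i
  · show rotF 0 x 0 = x 0
    rw [rotF_0]; simp
  · show rotF 0 x 1 = x 1
    rw [rotF_1]; simp
  · rfl

theorem rotF_neg (α : ℝ) (x : E3) : rotF α (rotF (-α) x) = x := by
  rw [rotF_rotF, add_neg_cancel, rotF_zero]

theorem rotF_neg' (α : ℝ) (x : E3) : rotF (-α) (rotF α x) = x := by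
  rw [rotF_rotF, neg_add_cancel, rotF_zero]

theorem norm_rotF (α : ℝ) (x : E3) : ‖rotF α x‖ = ‖x‖ := by
  have h : ‖rotF α x‖ ^ 2 = ‖x‖ ^ 2 := by
    rw [norm_sq_E3, norm_sq_E3, Fin.sum_univ_three, Fin.sum_univ_three, rotF_0, rotF_1, rotF_2]
    have := Real.sin_sq_add_cos_sq α
    linear_combination (x 0 ^ 2 + x 1 ^ 2) * this
  exact (pow_left_inj₀ (norm_nonneg _) (norm_nonneg _) (by norm_num)).mp h

theorem rotF_add' (α : ℝ) (x y : E3) : rotF α (x + y) = rotF α x + rotF α y := by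
  ext i
  fin_cases i
  · show rotF α (x + y) 0 = rotF α x 0 + rotF α y 0
    simp only [rotF_0, PiLp.add_apply]; ring
  · show rotF α (x + y) 1 = rotF α x 1 + rotF α y 1
    simp only [rotF_1, PiLp.add_apply]; ring
  · rfl

theorem rotF_smul (α c : ℝ) (x : E3) : rotF α (c • x) = c • rotF α x := by
  ext i
  fin_cases i
  · show rotF α (c • x) 0 = c * rotF α x 0
    simp only [rotF_0, PiLp.smul_apply, smul_eq_mul]; ring
  · show rotF α (c • x) 1 = c * rotF α x 1
    simp only [rotF_1, PiLp.smul_apply, smul_eq_mul]; ring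
  · rfl

/-- the rotation as an isometry -/
noncomputable def rotE (α : ℝ) : E3 ≃ₗᵢ[ℝ] E3 where
  toFun := rotF α
  invFun := rotF (-α)
  map_add' := rotF_add' α
  map_smul' := rotF_smul α
  left_inv := rotF_neg' α
  right_inv := rotF_neg α
  norm_map' := norm_rotF α

theorem rotE_apply (α : ℝ) (x : E3) : rotE α x = rotF α x := rfl

/-- the entries of the matrix of the rotation -/
noncomputable def Q (α : ℝ) (i j : Fin 3) : ℝ := rotF α (ev j) i

theorem rotF_sum (α : ℝ) (x : E3) (i : Fin 3) : rotF α x i = ∑ k, Q α i k * x k := by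
  have hv : x = ∑ j, x j • ev j := by
    ext i
    simp [Finset.sum_apply, Pi.single_apply]
  have h1 : rotF α x = ∑ j, x j • rotF α (ev j) := by
    conv_lhs => rw [hv]
    rw [← rotE_apply, map_sum]
    refine Finset.sum_congr rfl fun j _ => ?_
    rw [rotE_apply, rotF_smul]
  rw [h1]
  simp only [WithLp.ofLp_sum, Finset.sum_apply, PiLp.smul_apply, smul_eq_mul, Q]
  exact Finset.sum_congr rfl fun j _ => mul_comm _ _

theorem Q_neg (α : ℝ) (i j : Fin 3) : Q (-α) i j = Q α j i := by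
  unfold Q
  fin_cases i <;> fin_cases j <;>
    simp [rotF, ev, EuclideanSpace.single_apply, Real.cos_neg, Real.sin_neg]

/-- the matrix `R G Rᵀ` -/
noncomputable def cnjF (α : ℝ) (G : M3) : M3 :=
  WithLp.toLp 2 fun p => ∑ k, ∑ l, Q α p.1 k * Q α p.2 l * G (k, l)

theorem cnjF_apply (α : ℝ) (G : M3) (p : Fin 3 × Fin 3) :
    cnjF α G p = ∑ k, ∑ l, Q α p.1 k * Q α p.2 l * G (k, l) := rfl

theorem cnjF_tens (α : ℝ) (x : E3) : cnjF α (tens x) = tens (rotF α x) := by
  ext p
  rw [cnjF_apply, tens_apply, rotF_sum, rotF_sum, Finset.sum_mul_sum]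
  refine Finset.sum_congr rfl fun k _ => Finset.sum_congr rfl fun l _ => ?_
  rw [tens_apply]; ring

theorem sum_Q_sq (α : ℝ) (x : Fin 3 → ℝ) : ∑ i, (∑ k, Q α i k * x k) ^ 2 = ∑ k, x k ^ 2 := by
  have h := norm_rotF α (WithLp.toLp 2 x)
  have h2 : ‖rotF α (WithLp.toLp 2 x)‖ ^ 2 = ‖(WithLp.toLp 2 x : E3)‖ ^ 2 := by rw [h]
  rw [norm_sq_E3, norm_sq_E3] at h2
  simpa only [rotF_sum] using h2

theorem norm_cnjF (α : ℝ) (G : M3) : ‖cnjF α G‖ = ‖G‖ := by
  have h : ‖cnjF α G‖ ^ 2 = ‖G‖ ^ 2 := by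
    rw [norm_sq_M3, norm_sq_M3]
    simp only [cnjF_apply]
    calc ∑ i, ∑ j, (∑ k, ∑ l, Q α i k * Q α j l * G (k, l)) ^ 2
        = ∑ j, ∑ i, (∑ k, Q α i k * (∑ l, Q α j l * G (k, l))) ^ 2 := by
          rw [Finset.sum_comm]
          refine Finset.sum_congr rfl fun j _ => Finset.sum_congr rfl fun i _ => ?_
          congr 1
          refine Finset.sum_congr rfl fun k _ => ?_
          rw [Finset.mul_sum]
          exact Finset.sum_congr rfl fun l _ => by ring
      _ = ∑ j, ∑ k, (∑ l, Q α j l * G (k, l)) ^ 2 := by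
          refine Finset.sum_congr rfl fun j _ => ?_
          exact sum_Q_sq α fun k => ∑ l, Q α j l * G (k, l)
      _ = ∑ k, ∑ j, (∑ l, Q α j l * G (k, l)) ^ 2 := Finset.sum_comm
      _ = ∑ k, ∑ l, G (k, l) ^ 2 := by
          refine Finset.sum_congr rfl fun k _ => ?_
          exact sum_Q_sq α fun l => G (k, l)
  exact (pow_left_inj₀ (norm_nonneg _) (norm_nonneg _) (by norm_num)).mp h

/-- `R G Rᵀ` as a linear isometry -/
noncomputable def cnjI (α : ℝ) : M3 →ₗᵢ[ℝ] M3 where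
  toFun := cnjF α
  map_add' := fun x y => by
    ext p
    simp only [cnjF_apply, PiLp.add_apply, mul_add, Finset.sum_add_distrib]
  map_smul' := fun c x => by
    ext p
    simp only [cnjF_apply, PiLp.smul_apply, smul_eq_mul, RingHom.id_apply, Finset.mul_sum]
    exact Finset.sum_congr rfl fun k _ => Finset.sum_congr rfl fun l _ => by ring
  norm_map' := norm_cnjF α

theorem cnjI_apply (α : ℝ) (x : M3) : cnjI α x = cnjF α x := rfl

theorem sum_Q_orth (α : ℝ) (k l : Fin 3) : ∑ i, Q α i k * Q α i l = if k = l then 1 else 0 := by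
  have h : ⟪rotE α (ev k), rotE α (ev l)⟫_ℝ = ⟪(ev k : E3), ev l⟫_ℝ := (rotE α).inner_map_map _ _
  rw [inner_E3, inner_E3] at h
  have h2 : ∑ i, (ev k : E3) i * (ev l : E3) i = if k = l then 1 else 0 := by
    simp [EuclideanSpace.single_apply, eq_comm]
  rw [h2] at h
  exact h

theorem tr_cnjF (α : ℝ) (G : M3) : ∑ i, cnjF α G (i, i) = ∑ i, G (i, i) := by
  simp only [cnjF_apply]
  calc ∑ i, ∑ k, ∑ l, Q α i k * Q α i l * G (k, l)
      = ∑ k, ∑ l, (∑ i, Q α i k * Q α i l) * G (k, l) := by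
        rw [Finset.sum_comm]
        refine Finset.sum_congr rfl fun k _ => ?_
        rw [Finset.sum_comm]
        refine Finset.sum_congr rfl fun l _ => ?_
        rw [Finset.sum_mul]
    _ = ∑ i, G (i, i) := by
        refine Finset.sum_congr rfl fun k _ => ?_
        simp [sum_Q_orth]

theorem cnjF_rot (α β : ℝ) (G : M3) : cnjF α (cnjF β G) = cnjF (α + β) G := by
  have hQ : ∀ i j, Q (α + β) i j = ∑ k, Q α i k * Q β k j := by
    intro i j
    unfold Q
    rw [← rotF_rotF, rotF_sum]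
    rfl
  ext p
  simp only [cnjF_apply, hQ]
  simp only [Fin.sum_univ_three]
  ring

theorem cnjF_zero (G : M3) : cnjF 0 G = G := by
  ext p
  simp only [cnjF_apply]
  have hQ : ∀ i j, Q 0 i j = if i = j then 1 else 0 := by
    intro i j
    unfold Q
    rw [rotF_zero]
    simp [EuclideanSpace.single_apply]
  simp [hQ]

/-- the rotated field -/
noncomputable def rotT (α : ℝ) (φ : E3 → E3) (x : E3) : E3 := rotF α (φ (rotF (-α) x))

theorem jac_rotT (α : ℝ) {φ : E3 → E3} (hφ : ContDiff ℝ ∞ φ) (x : E3) :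
    jac (rotT α φ) x = cnjF α (jac φ (rotF (-α) x)) := by
  have hd : DifferentiableAt ℝ φ (rotF (-α) x) := (hφ.differentiable (by simp)) _
  have h1 : HasFDerivAt (rotT α φ) ((rotE α).toContinuousLinearEquiv.toContinuousLinearMap.comp
      ((fderiv ℝ φ (rotF (-α) x)).comp
        (rotE (-α)).toContinuousLinearEquiv.toContinuousLinearMap)) x := by
    have k1 : HasFDerivAt (fun x => rotE (-α) x)
        (rotE (-α)).toContinuousLinearEquiv.toContinuousLinearMap x :=
      (rotE (-α)).toContinuousLinearEquiv.toContinuousLinearMap.hasFDerivAt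
    have k2 := hd.hasFDerivAt.comp x k1
    exact (rotE α).toContinuousLinearEquiv.toContinuousLinearMap.hasFDerivAt.comp x k2
  ext p
  rw [jac_apply, h1.fderiv]
  show rotF α (fderiv ℝ φ (rotF (-α) x) (rotF (-α) (ev p.2))) p.1 = _
  have h2 : fderiv ℝ φ (rotF (-α) x) (rotF (-α) (ev p.2))
      = ∑ l, Q α p.2 l • fderiv ℝ φ (rotF (-α) x) (ev l) := by
    have h3 : rotF (-α) (ev p.2) = ∑ l, Q α p.2 l • (ev l : E3) := by
      ext i
      simp only [WithLp.ofLp_sum, Finset.sum_apply, PiLp.smul_apply, smul_eq_mul]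
      have : rotF (-α) (ev p.2) i = Q α p.2 i := Q_neg α i p.2
      rw [this]
      simp [Pi.single_apply]
    rw [h3, map_sum]
    exact Finset.sum_congr rfl fun l _ => by rw [map_smul]
  rw [h2, rotF_sum, cnjF_apply]
  refine Finset.sum_congr rfl fun k _ => ?_
  simp only [WithLp.ofLp_sum, Finset.sum_apply, PiLp.smul_apply, smul_eq_mul, Finset.mul_sum,
    jac_apply]
  exact Finset.sum_congr rfl fun l _ => by ring

/-- invariant sets -/
def Inv (α : ℝ) (Ω : Set E3) : Prop := ∀ x, rotF α x ∈ Ω ↔ x ∈ Ω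

theorem Inv.neg {α : ℝ} {Ω : Set E3} (h : Inv α Ω) : Inv (-α) Ω := by
  intro x
  rw [← h (rotF (-α) x), rotF_neg]

theorem rotT_test {α : ℝ} {Ω : Set E3} (h : Inv α Ω) {φ : E3 → E3} (hφ : IsTest Ω φ) :
    IsTest Ω (rotT α φ) where
  smooth := (rotE α).contDiff.comp (hφ.smooth.comp (rotE (-α)).contDiff)
  compact := by
    have h1 : HasCompactSupport (φ ∘ (rotE (-α)).toHomeomorph) := hφ.compact.comp_homeomorph _
    exact h1.comp_left (g := rotE α) (map_zero _)
  supp := by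
    have h1 : tsupport (rotT α φ) ⊆ tsupport (φ ∘ (rotE (-α)).toHomeomorph) :=
      tsupport_comp_subset (g := rotE α) (map_zero _) _
    rw [tsupport_comp_eq_preimage] at h1
    intro x hx
    have h2 : rotF (-α) x ∈ tsupport φ := h1 hx
    exact (h.neg x).mp (hφ.supp h2)
  divfree := fun x => by
    rw [jac_rotT α hφ.smooth, tr_cnjF]
    exact hφ.divfree _

section act

variable {Ω : Set E3} {α : ℝ}

theorem mp (hm : MeasurableSet Ω) (h : Inv α Ω) :
    MeasurePreserving (rotE (-α)) (volume.restrict Ω) (volume.restrict Ω) := by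
  have h1 := ((rotE (-α)).measurePreserving).restrict_preimage hm
  have h2 : (rotE (-α)) ⁻¹' Ω = Ω := by
    ext x
    exact h.neg x
  rwa [h2] at h1

/-- the action of a linear isometry on the values -/
noncomputable def valI {X : Type} [NormedAddCommGroup X] [InnerProductSpace ℝ X] {μ : Measure E3}
    (A : X →ₗᵢ[ℝ] X) : Lp X 2 μ →ₗᵢ[ℝ] Lp X 2 μ where
  toLinearMap := (A.toContinuousLinearMap.compLpL 2 μ).toLinearMap
  norm_map' := fun v => by
    show ‖(A.toContinuousLinearMap.compLpL 2 μ) v‖ = ‖v‖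
    rw [Lp.norm_def, Lp.norm_def]
    congr 1
    refine eLpNorm_congr_norm_ae ?_
    filter_upwards [ContinuousLinearMap.coeFn_compLpL A.toContinuousLinearMap v] with x hx
    rw [hx]
    exact A.norm_map _

theorem valI_coe {X : Type} [NormedAddCommGroup X] [InnerProductSpace ℝ X] {μ : Measure E3}
    (A : X →ₗᵢ[ℝ] X) (v : Lp X 2 μ) : (valI A v : E3 → X) =ᵐ[μ] fun x => A (v x) :=
  ContinuousLinearMap.coeFn_compLpL A.toContinuousLinearMap v

/-- the action on vector fields -/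
noncomputable def UI (hm : MeasurableSet Ω) (h : Inv α Ω) : L2V Ω →ₗᵢ[ℝ] L2V Ω :=
  (valI (rotE α).toLinearIsometry).comp (Lp.compMeasurePreservingₗᵢ ℝ (rotE (-α)) (mp hm h))

/-- the action on matrix fields -/
noncomputable def VI (hm : MeasurableSet Ω) (h : Inv α Ω) : L2M Ω →ₗᵢ[ℝ] L2M Ω :=
  (valI (cnjI α)).comp (Lp.compMeasurePreservingₗᵢ ℝ (rotE (-α)) (mp hm h))

theorem UI_coe (hm : MeasurableSet Ω) (h : Inv α Ω) (v : L2V Ω) :
    (UI hm h v : E3 → E3) =ᵐ[volume.restrict Ω] fun x => rotF α (v (rotF (-α) x)) := by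
  have h1 := valI_coe (rotE α).toLinearIsometry
    (Lp.compMeasurePreservingₗᵢ ℝ (rotE (-α)) (mp hm h) v)
  have h2 := Lp.coeFn_compMeasurePreserving v (mp hm h)
  filter_upwards [h1, h2] with x k1 k2
  refine k1.trans ?_
  show rotF α _ = _
  congr 1

theorem VI_coe (hm : MeasurableSet Ω) (h : Inv α Ω) (v : L2M Ω) :
    (VI hm h v : E3 → M3) =ᵐ[volume.restrict Ω] fun x => cnjF α (v (rotF (-α) x)) := by
  have h1 := valI_coe (cnjI α) (Lp.compMeasurePreservingₗᵢ ℝ (rotE (-α)) (mp hm h) v)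
  have h2 := Lp.coeFn_compMeasurePreserving v (mp hm h)
  filter_upwards [h1, h2] with x k1 k2
  refine k1.trans ?_
  show cnjF α _ = _
  congr 1

theorem UI_test (hm : MeasurableSet Ω) (h : Inv α Ω) {v : L2V Ω} {φ : E3 → E3}
    (hv : v =ᵐ[volume.restrict Ω] φ) : UI hm h v =ᵐ[volume.restrict Ω] rotT α φ := by
  filter_upwards [UI_coe hm h v, (mp hm h).quasiMeasurePreserving.ae hv] with x k1 k2
  rw [k1]
  exact congrArg (rotF α) k2

theorem VI_test (hm : MeasurableSet Ω) (h : Inv α Ω) {v : L2M Ω} {φ : E3 → E3}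
    (hφ : ContDiff ℝ ∞ φ) (hv : v =ᵐ[volume.restrict Ω] jac φ) :
    VI hm h v =ᵐ[volume.restrict Ω] jac (rotT α φ) := by
  filter_upwards [VI_coe hm h v, (mp hm h).quasiMeasurePreserving.ae hv] with x k1 k2
  rw [k1, jac_rotT α hφ]
  exact congrArg (cnjF α) k2

theorem pre_mem (hm : MeasurableSet Ω) (h : Inv α Ω) {p : L2V Ω × L2M Ω} (hp : p ∈ preW Ω) :
    (UI hm h p.1, VI hm h p.2) ∈ preW Ω := by
  obtain ⟨φ, h1, h2, h3⟩ := hp
  exact ⟨rotT α φ, rotT_test h h1, UI_test hm h h2, VI_test hm h h1.smooth h3⟩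

theorem W_mem (hm : MeasurableSet Ω) (h : Inv α Ω) {p : L2V Ω × L2M Ω} (hp : p ∈ graphW Ω) :
    (UI hm h p.1, VI hm h p.2) ∈ graphW Ω := by
  have hc : Continuous fun p : L2V Ω × L2M Ω => (UI hm h p.1, VI hm h p.2) :=
    ((UI hm h).continuous.comp continuous_fst).prodMk ((VI hm h).continuous.comp continuous_snd)
  have hcl : IsClosed ((fun p : L2V Ω × L2M Ω => (UI hm h p.1, VI hm h p.2)) ⁻¹'
      (graphW Ω : Set (L2V Ω × L2M Ω))) := (graphW_closed Ω).preimage hc
  have hsub : (preW Ω : Set (L2V Ω × L2M Ω)) ⊆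
      (fun p : L2V Ω × L2M Ω => (UI hm h p.1, VI hm h p.2)) ⁻¹'
      (graphW Ω : Set (L2V Ω × L2M Ω)) := fun q hq =>
    Submodule.le_topologicalClosure _ (pre_mem hm h hq)
  have hp' : p ∈ closure (preW Ω : Set (L2V Ω × L2M Ω)) := by
    have := hp
    unfold graphW at this
    rwa [← SetLike.mem_coe, Submodule.topologicalClosure_coe] at this
  exact closure_minimal hsub hcl hp'

theorem UI_inv (hm : MeasurableSet Ω) (h : Inv α Ω) (v : L2V Ω) :
    UI hm h (UI hm h.neg v) = v := by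
  apply Lp.ext
  filter_upwards [UI_coe hm h (UI hm h.neg v),
    (mp hm h).quasiMeasurePreserving.ae (UI_coe hm h.neg v)] with x k1 k2
  have k3 : (UI hm h.neg v : E3 → E3) (rotF (-α) x) = rotF (-α) (v (rotF (- -α) (rotF (-α) x))) :=
    k2
  rw [k1, k3, rotF_neg, neg_neg, rotF_neg]

theorem VI_inv (hm : MeasurableSet Ω) (h : Inv α Ω) (v : L2M Ω) :
    VI hm h (VI hm h.neg v) = v := by
  apply Lp.ext
  filter_upwards [VI_coe hm h (VI hm h.neg v),
    (mp hm h).quasiMeasurePreserving.ae (VI_coe hm h.neg v)] with x k1 k2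
  have k3 : (VI hm h.neg v : E3 → M3) (rotF (-α) x) = cnjF (-α) (v (rotF (- -α) (rotF (-α) x))) :=
    k2
  rw [k1, k3, cnjF_rot, add_neg_cancel, cnjF_zero, neg_neg, rotF_neg]

/-- the rotation is a symmetry -/
theorem symm_rot (hm : MeasurableSet Ω) (h : Inv α Ω) :
    Symm (graphW Ω) (tensL (Ω := Ω)) (UI hm h) (VI hm h) where
  mem := fun p hp => W_mem hm h hp
  surj := fun p hp => ⟨(UI hm h.neg p.1, VI hm h.neg p.2), W_mem hm h.neg hp, UI_inv hm h p.1,
    VI_inv hm h p.2⟩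
  eqv := fun p hp => by
    apply Lp.ext
    filter_upwards [tensL_coe hm (W_mem hm h hp), VI_coe hm h (tensL p.1), UI_coe hm h p.1,
      (mp hm h).quasiMeasurePreserving.ae (tensL_coe hm hp)] with x k1 k2 k3 k4
    have k1' : (tensL (UI hm h p.1) : E3 → M3) x = tens ((UI hm h p.1 : E3 → E3) x) := k1
    have k4' : (tensL p.1 : E3 → M3) (rotF (-α) x) = tens (p.1 (rotF (-α) x)) := k4
    rw [k1', k2, k3, k4', cnjF_tens]

end act

end Pool.Agent.Y303.NF
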