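import Pool.Agent.Y303.NF.Apri

/-!
Symmetries of the equations, in the abstract frame.
-/

set_option autoImplicit false
set_option linter.unusedSectionVars false

open MeasureTheory Set Filter Topology
open scoped InnerProductSpace

namespace Pool.Agent.Y303.NF

open Pool.Agent.Y303.RA
open Pool.Agent.W795.TQ
open H772R2.NSR (Frame prim_cont memLp_ii ae_deriv_of_prim grad_unique)
open H772R2.NSG (St LH ii_of_int int_inner norm_m_le mem_cont)

variable {H K : Type} [NormedAddCommGroup H] [InnerProductSpace ℝ H] [CompleteSpace H]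
  [NormedAddCommGroup K] [InnerProductSpace ℝ K] [CompleteSpace K]
  {W : Submodule ℝ (H × K)} {m : H → K} {C ν T τ : ℝ} {F F1 : ℝ → K} {u u1 : ℝ → H}
  {z z1 : ℝ → K} {U : H →ₗᵢ[ℝ] H} {V : K →ₗᵢ[ℝ] K}

/-- a symmetry of the equations -/
structure Symm (W : Submodule ℝ (H × K)) (m : H → K) (U : H →ₗᵢ[ℝ] H) (V : K →ₗᵢ[ℝ] K) :
    Prop where
  mem : ∀ p ∈ W, (U p.1, V p.2) ∈ W
  surj : ∀ p ∈ W, ∃ q ∈ W, U q.1 = p.1 ∧ V q.2 = p.2
  eqv : ∀ p ∈ W, m (U p.1) = V (m p.1)

theorem Symm.str (Sy : Symm W m U V) (hF : ∀ t ∈ Icc 0 T, ∀ p ∈ W, ⟪F t, V p.2⟫_ℝ = ⟪F t, p.2⟫_ℝ)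
    (S : Str W m ν T F u u1 z z1) :
    Str W m ν T F (fun t => U (u t)) (fun t => U (u1 t)) (fun t => V (z t)) (fun t => V (z1 t)) := by
  have hU : ∀ x : H, U.toContinuousLinearMap x = U x := fun x => rfl
  have hV : ∀ x : K, V.toContinuousLinearMap x = V x := fun x => rfl
  obtain ⟨c, hc⟩ := S.bd
  refine ⟨fun t ht => Sy.mem _ (S.mem t ht), ?_, ⟨c, ?_⟩, ?_, ?_, ?_, ?_, ?_, ?_⟩
  · filter_upwards [S.mem1] with t ht
    exact Sy.mem _ ht
  · filter_upwards [hc] with t ht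
    rw [U.norm_map]; exact ht
  · exact U.toContinuousLinearMap.comp_memLp' S.u1m
  · exact V.toContinuousLinearMap.comp_memLp' S.z1m
  · intro a b ha hab hb
    have hi : IntervalIntegrable u1 volume a b :=
      ii_of_int (S.u1m.integrable (by norm_num)) ha hab hb
    have h1 := U.toContinuousLinearMap.intervalIntegral_comp_comm hi
    simp only [hU] at h1
    rw [h1, ← S.pu a b ha hab hb, map_sub]
  · intro a b ha hab hb
    have hi : IntervalIntegrable z1 volume a b :=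
      ii_of_int (S.z1m.integrable (by norm_num)) ha hab hb
    have h1 := V.toContinuousLinearMap.intervalIntegral_comp_comm hi
    simp only [hV] at h1
    rw [h1, ← S.pz a b ha hab hb, map_sub]
  · intro p hp t ht
    obtain ⟨q, hq, e1, e2⟩ := Sy.surj p hp
    rw [← e1, ← map_sub, U.inner_map_map, S.weak q hq t ht]
    refine intervalIntegral.integral_congr fun s hs => ?_
    rw [uIcc_of_le ht.1] at hs
    have hs' : s ∈ Icc 0 T := ⟨hs.1, hs.2.trans ht.2⟩
    have e3 : m (U (u s)) = V (m (u s)) := Sy.eqv _ (S.mem s hs')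
    rw [← e2, e3, inner_add_left, inner_sub_left, inner_add_left, inner_sub_left,
      real_inner_smul_left, real_inner_smul_left, V.inner_map_map, V.inner_map_map,
      hF s hs' q hq]
  · intro t ht
    have e2 : ∫ s in (0 : ℝ)..t, ⟪F s, V (z s)⟫_ℝ = ∫ s in (0 : ℝ)..t, ⟪F s, z s⟫_ℝ := by
      refine intervalIntegral.integral_congr fun s hs => ?_
      rw [uIcc_of_le ht.1] at hs
      exact hF s ⟨hs.1, hs.2.trans ht.2⟩ _ (S.mem s ⟨hs.1, hs.2.trans ht.2⟩)
    rw [e2]
    simp only [U.norm_map, V.norm_map]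
    exact S.energy t ht

/-- strong solutions are Leray-Hopf solutions -/
theorem lh_of_str (Fr : Frame W m C)
    (S : Str W m ν T F u u1 z z1) : LH W m T (fun _ => ν) F (u 0) u z := by
  have hzc : ContinuousOn z (Icc 0 T) := prim_cont S.z1m S.pz
  have huc : ContinuousOn u (Icc 0 T) := prim_cont S.u1m S.pu
  have hmc : ContinuousOn (fun s => m (u s)) (Icc 0 T) := by
    intro x hx
    exact m_tendsto Fr (l := 𝓝[Icc 0 T] x) (p := fun y => (u y, z y)) (q := (u x, z x)) (by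
      filter_upwards [self_mem_nhdsWithin] with y hy
      exact S.mem y hy) (S.mem x hx) (huc x hx) (hzc x hx)
  refine ⟨rfl, (huc.mono Ioc_subset_Icc_self).aestronglyMeasurable measurableSet_Ioc,
    (hmc.mono Ioc_subset_Icc_self).aestronglyMeasurable measurableSet_Ioc, ?_, mem_cont hzc, ?_,
    S.weak, fun t ht => ?_⟩
  · filter_upwards [ae_restrict_mem measurableSet_Ioc] with t ht
    exact S.mem t (Ioc_subset_Icc_self ht)
  · have : ContinuousOn (fun s => ν * ‖z s‖ ^ 2) (Icc 0 T) :=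
      continuousOn_const.mul (hzc.norm.pow 2)
    exact this.integrableOn_Icc.mono_set Ioc_subset_Icc_self
  · rw [intervalIntegral.integral_const_mul]
    exact (S.energy t ht).le

/-- strong solutions with the same data coincide -/
theorem str_unique (huni : S_uni) (Fr : Frame W m C) (hν : 0 < ν) (hT : 0 < T) (hτ : 0 < τ)
    (hτT : τ ≤ T) (hF : ContinuousOn F (Icc 0 T)) {v v1 : ℝ → H} {y y1 : ℝ → K}
    (S : Str W m ν T F u u1 z z1) (S' : Str W m ν τ F v v1 y y1) (h0 : v 0 = u 0) :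
    ∀ t ∈ Icc 0 τ, u t = v t :=
  (huni H K W m C ν T τ F (u 0) u v v1 z y y1 Fr hν hτ hτT hF (lh_of_str Fr S) S' h0).1

/-- symmetric data have symmetric solutions -/
theorem Symm.inv (huni : S_uni) (Fr : Frame W m C) (hν : 0 < ν) (hT : 0 < T)
    (hF : ContinuousOn F (Icc 0 T)) (Sy : Symm W m U V)
    (hFs : ∀ t ∈ Icc 0 T, ∀ p ∈ W, ⟪F t, V p.2⟫_ℝ = ⟪F t, p.2⟫_ℝ)
    (S : Str W m ν T F u u1 z z1) (h0 : U (u 0) = u 0) :
    ∀ᵐ t ∂(volume.restrict (Ioc 0 T)), (u1 t, z1 t) ∈ W ∧ U (u1 t) = u1 t ∧ V (z1 t) = z1 t := by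
  have h1 := str_unique huni Fr hν hT hT le_rfl hF S (Sy.str hFs S) h0
  have hne : ∀ᵐ s ∂(volume.restrict (Ioc 0 T)), s ≠ T := by
    refine ae_restrict_of_ae ?_
    simp [ae_iff, measure_singleton]
  filter_upwards [ae_deriv_of_prim hT (memLp_ii hT.le S.u1m) S.pu, S.mem1,
    ae_restrict_mem measurableSet_Ioc, hne] with s hd hm hs hsT
  have hd2 : HasDerivAt (fun t => U (u t)) (U (u1 s)) s := by
    have := U.toContinuousLinearMap.hasFDerivAt.comp_hasDerivAt s hd
    exact this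
  have hd3 : HasDerivAt u (U (u1 s)) s := by
    refine hd2.congr_of_eventuallyEq ?_
    filter_upwards [Icc_mem_nhds hs.1 (lt_of_le_of_ne hs.2 hsT)] with x hx
    exact h1 x hx
  have e1 : U (u1 s) = u1 s := hd3.unique hd
  have e2 : (U (u1 s), V (z1 s)) ∈ W := Sy.mem _ hm
  rw [e1] at e2
  exact ⟨hm, e1, grad_unique Fr e2 hm⟩

end Pool.Agent.Y303.NF
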